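import Pool.Agent.H24.MR.InterfaceMR

/-!
# [GM]: Gaussian weighted mean value theorem for Dirichlet polynomials
-/

set_option autoImplicit false

open Finset Filter MeasureTheory
open scoped ComplexConjugate

namespace Pool.Agent.H24.MR

namespace GM

/-- the Gaussian weight -/
noncomputable def gw (T t : ℝ) : ℝ := Real.exp (-(t / T) ^ 2)

theorem gw_eq {T : ℝ} (t : ℝ) : gw T t = Real.exp (-(1 / T ^ 2) * t ^ 2) := by
  unfold gw
  congr 1
  rw [div_pow]
  ring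

theorem gw_integrable {T : ℝ} (hT : 0 < T) : Integrable (gw T) := by
  have := integrable_exp_neg_mul_sq (b := 1 / T ^ 2) (by positivity)
  refine this.congr (Filter.Eventually.of_forall fun t => ?_)
  exact (gw_eq t).symm

theorem norm_fourier {T : ℝ} (hT : 0 < T) (c : ℝ) :
    ‖∫ t : ℝ, Complex.exp (Complex.I * c * t) * (gw T t : ℂ)‖ =
      T * Real.sqrt Real.pi * Real.exp (-(T ^ 2 * c ^ 2 / 4)) := by
  have hb : 0 < ((1 / T ^ 2 : ℝ) : ℂ).re := by
    rw [Complex.ofReal_re]; positivity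
  have h := fourierIntegral_gaussian hb (c : ℂ)
  have e1 : (∫ t : ℝ, Complex.exp (Complex.I * c * t) * (gw T t : ℂ)) =
      ∫ t : ℝ, Complex.exp (Complex.I * c * t) *
        Complex.exp (-((1 / T ^ 2 : ℝ) : ℂ) * (t : ℂ) ^ 2) := by
    congr 1
    funext t
    rw [gw_eq]
    push_cast
    rfl
  rw [e1, h, norm_mul]
  have e2 : ‖((Real.pi : ℂ) / ((1 / T ^ 2 : ℝ) : ℂ)) ^ (1 / 2 : ℂ)‖ = T * Real.sqrt Real.pi := by
    have e3 : (Real.pi : ℂ) / ((1 / T ^ 2 : ℝ) : ℂ) = ((Real.pi * T ^ 2 : ℝ) : ℂ) := by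
      push_cast
      field_simp
    rw [e3, show (1 / 2 : ℂ) = ((1 / 2 : ℝ) : ℂ) by push_cast; rfl,
      ← Complex.ofReal_cpow (by positivity), Complex.norm_real, Real.norm_eq_abs,
      abs_of_nonneg (by positivity), ← Real.sqrt_eq_rpow, Real.sqrt_mul Real.pi_pos.le,
      Real.sqrt_sq hT.le, mul_comm]
  have e4 : ‖Complex.exp (-(c : ℂ) ^ 2 / (4 * ((1 / T ^ 2 : ℝ) : ℂ)))‖ =
      Real.exp (-(T ^ 2 * c ^ 2 / 4)) := by
    have e5 : -(c : ℂ) ^ 2 / (4 * ((1 / T ^ 2 : ℝ) : ℂ)) = ((-(T ^ 2 * c ^ 2 / 4) : ℝ) : ℂ) := by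
      push_cast
      have : (T : ℂ) ≠ 0 := by exact_mod_cast hT.ne'
      field_simp
    rw [e5, Complex.norm_exp, Complex.ofReal_re]
  rw [e2, e4]

/-- `e^{-x²} ≤ e · e^{-2|x|}` -/
theorem gauss_le (T c : ℝ) : Real.exp (-(T ^ 2 * c ^ 2 / 4)) ≤
    Real.exp 1 * Real.exp (-(|T| * |c|)) := by
  rw [← Real.exp_add]
  apply Real.exp_le_exp.mpr
  have h : 0 ≤ (|T| * |c| / 2 - 1) ^ 2 := sq_nonneg _
  have h2 : (|T| * |c|) ^ 2 = T ^ 2 * c ^ 2 := by rw [mul_pow, sq_abs, sq_abs]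
  nlinarith

/-- the weight `w(m,n) = exp(-T |log n - log m|)` -/
noncomputable def ww (T : ℝ) (m n : ℕ) : ℝ := Real.exp (-(T * |Real.log n - Real.log m|))

theorem ww_le_of_lt {T : ℝ} (hT : 1 ≤ T) {m n : ℕ} (hm : 1 ≤ m) (hn : 1 ≤ n) (hnm : n < m) :
    ww T m n ≤ (((n + 1 : ℕ) : ℝ) / m) ^ (T + 1) * (m / (T + 1)) -
      ((n : ℝ) / m) ^ (T + 1) * (m / (T + 1)) := by
  have hm0 : (0 : ℝ) < m := by exact_mod_cast hm
  have hn0 : (0 : ℝ) < n := by exact_mod_cast hn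
  have h1 : ww T m n = ((n : ℝ) / m) ^ T := by
    unfold ww
    have h2 : Real.log n ≤ Real.log m := Real.log_le_log hn0 (by exact_mod_cast hnm.le)
    rw [abs_of_nonpos (by linarith), Real.rpow_def_of_pos (by positivity),
      Real.log_div hn0.ne' hm0.ne']
    congr 1
    ring
  have hb := one_add_mul_self_le_rpow_one_add (s := 1 / (n : ℝ)) (by
    have : 0 ≤ 1 / (n : ℝ) := by positivity
    linarith) (p := T + 1) (by linarith)
  have e1 : (((n + 1 : ℕ) : ℝ) / m) ^ (T + 1) = ((n : ℝ) / m) ^ (T + 1) * (1 + 1 / (n : ℝ)) ^ (T + 1) := by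
    rw [← Real.mul_rpow (by positivity) (by positivity)]
    congr 1
    push_cast
    field_simp
  have e2 : ((n : ℝ) / m) ^ (T + 1) = ((n : ℝ) / m) ^ T * ((n : ℝ) / m) := by
    rw [Real.rpow_add (by positivity), Real.rpow_one]
  rw [e1, h1]
  have hpos : 0 ≤ ((n : ℝ) / m) ^ (T + 1) * (m / (T + 1)) := by positivity
  calc ((n : ℝ) / m) ^ T = ((n : ℝ) / m) ^ (T + 1) * (m / (T + 1)) * ((T + 1) * (1 / n)) := by
        rw [e2]
        have : T + 1 ≠ 0 := by linarith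
        field_simp
    _ ≤ ((n : ℝ) / m) ^ (T + 1) * (m / (T + 1)) * ((1 + 1 / (n : ℝ)) ^ (T + 1) - 1) := by
        apply mul_le_mul_of_nonneg_left _ hpos
        linarith
    _ = _ := by ring

theorem ww_le_of_gt {T : ℝ} (hT : 2 ≤ T) {m n : ℕ} (hm : 1 ≤ m) (hnm : m ≤ n) :
    ww T m (n + 1) ≤ ((m : ℝ) / n) ^ (T - 1) * (m / (T - 1)) -
      ((m : ℝ) / ((n + 1 : ℕ) : ℝ)) ^ (T - 1) * (m / (T - 1)) := by
  have hm0 : (0 : ℝ) < m := by exact_mod_cast hm
  have hn0 : (0 : ℝ) < n := by exact_mod_cast (hm.trans hnm)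
  have hn1 : (0 : ℝ) < ((n + 1 : ℕ) : ℝ) := by positivity
  have hT1 : 0 < T - 1 := by linarith
  have h1 : ww T m (n + 1) = ((m : ℝ) / ((n + 1 : ℕ) : ℝ)) ^ T := by
    unfold ww
    have h2 : Real.log m ≤ Real.log ((n + 1 : ℕ) : ℝ) :=
      Real.log_le_log hm0 (by exact_mod_cast (by omega))
    rw [abs_of_nonneg (by linarith), Real.rpow_def_of_pos (by positivity),
      Real.log_div hm0.ne' hn1.ne']
    congr 1
    ring
  have hb := one_add_mul_self_le_rpow_one_add (s := 1 / (n : ℝ)) (by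
    have : 0 ≤ 1 / (n : ℝ) := by positivity
    linarith) (p := T - 1) (by linarith)
  have e1 : ((m : ℝ) / n) ^ (T - 1) = ((m : ℝ) / ((n + 1 : ℕ) : ℝ)) ^ (T - 1) *
      (1 + 1 / (n : ℝ)) ^ (T - 1) := by
    rw [← Real.mul_rpow (by positivity) (by positivity)]
    congr 1
    push_cast
    field_simp
  have e2 : ((m : ℝ) / ((n + 1 : ℕ) : ℝ)) ^ T =
      ((m : ℝ) / ((n + 1 : ℕ) : ℝ)) ^ (T - 1) * ((m : ℝ) / ((n + 1 : ℕ) : ℝ)) := by
    conv_lhs => rw [show T = (T - 1) + 1 by ring]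
    rw [Real.rpow_add (by positivity), Real.rpow_one]
  rw [e1, h1, e2]
  have hpos : 0 ≤ ((m : ℝ) / ((n + 1 : ℕ) : ℝ)) ^ (T - 1) * (m / (T - 1)) := by positivity
  have hn1n : (1 : ℝ) / ((n + 1 : ℕ) : ℝ) ≤ 1 / n :=
    one_div_le_one_div_of_le hn0 (by push_cast; linarith)
  calc ((m : ℝ) / ((n + 1 : ℕ) : ℝ)) ^ (T - 1) * ((m : ℝ) / ((n + 1 : ℕ) : ℝ)) =
      ((m : ℝ) / ((n + 1 : ℕ) : ℝ)) ^ (T - 1) * (m / (T - 1)) *
        ((T - 1) * (1 / ((n + 1 : ℕ) : ℝ))) := by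
        field_simp
    _ ≤ ((m : ℝ) / ((n + 1 : ℕ) : ℝ)) ^ (T - 1) * (m / (T - 1)) *
        ((1 + 1 / (n : ℝ)) ^ (T - 1) - 1) := by
        apply mul_le_mul_of_nonneg_left _ hpos
        have := mul_le_mul_of_nonneg_left hn1n hT1.le
        linarith
    _ = _ := by ring

theorem ww_nonneg (T : ℝ) (m n : ℕ) : 0 ≤ ww T m n := (Real.exp_pos _).le

theorem ww_le_one {T : ℝ} (hT : 0 ≤ T) (m n : ℕ) : ww T m n ≤ 1 := by
  unfold ww
  rw [Real.exp_le_one_iff]
  have := mul_nonneg hT (abs_nonneg (Real.log n - Real.log m))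
  linarith

/-- `T ∑_n w(m,n) ≤ 3 (T + m)`. -/
theorem sum_ww_le {T : ℝ} (hT : 4 ≤ T) {m : ℕ} (hm : 1 ≤ m) (S : Finset ℕ) (hS : ∀ n ∈ S, 1 ≤ n) :
    T * ∑ n ∈ S, ww T m n ≤ 3 * (T + m) := by
  have hm0 : (0 : ℝ) < m := by exact_mod_cast hm
  have hT1 : 0 < T - 1 := by linarith
  -- lower part
  have low : ∑ n ∈ S.filter (fun n => n < m), ww T m n ≤ m / (T + 1) := by
    have h1 : ∑ n ∈ S.filter (fun n => n < m), ww T m n ≤
        ∑ n ∈ Finset.range m, ((((n + 1 : ℕ) : ℝ) / m) ^ (T + 1) * (m / (T + 1)) -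
          ((n : ℝ) / m) ^ (T + 1) * (m / (T + 1))) := by
      calc ∑ n ∈ S.filter (fun n => n < m), ww T m n ≤
          ∑ n ∈ S.filter (fun n => n < m), ((((n + 1 : ℕ) : ℝ) / m) ^ (T + 1) * (m / (T + 1)) -
          ((n : ℝ) / m) ^ (T + 1) * (m / (T + 1))) := by
            refine Finset.sum_le_sum fun n hn => ?_
            rw [Finset.mem_filter] at hn
            exact ww_le_of_lt (by linarith) hm (hS n hn.1) hn.2
        _ ≤ _ := by
            refine Finset.sum_le_sum_of_subset_of_nonneg ?_ ?_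
            · intro n hn
              rw [Finset.mem_filter] at hn
              exact Finset.mem_range.mpr hn.2
            · intro n _ _
              rw [sub_nonneg]
              refine mul_le_mul_of_nonneg_right ?_ (by positivity)
              refine Real.rpow_le_rpow (by positivity) ?_ (by linarith)
              gcongr
              push_cast
              linarith
    refine h1.trans ?_
    rw [Finset.sum_range_sub (fun n : ℕ => ((n : ℝ) / m) ^ (T + 1) * (m / (T + 1)))]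
    rw [div_self hm0.ne', Real.one_rpow, one_mul, Nat.cast_zero, zero_div,
      Real.zero_rpow (by linarith), zero_mul, sub_zero]
  -- upper part
  have up : ∑ n ∈ S.filter (fun n => m < n), ww T m n ≤ m / (T - 1) := by
    obtain ⟨N, hN⟩ : ∃ N, ∀ n ∈ S, n ≤ N := ⟨S.sup id, fun n hn => Finset.le_sup (f := id) hn⟩
    have h1 : ∑ n ∈ S.filter (fun n => m < n), ww T m n ≤
        ∑ n ∈ Finset.Ico m (m + N), ww T m (n + 1) := by
      rw [← Finset.sum_image (s := Finset.Ico m (m + N)) (g := fun n => n + 1)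
        (f := fun n => ww T m n) (fun a _ b _ h => by simpa using h)]
      refine Finset.sum_le_sum_of_subset_of_nonneg ?_ (fun n _ _ => ww_nonneg T m n)
      intro n hn
      rw [Finset.mem_filter] at hn
      have := hN n hn.1
      rw [Finset.mem_image]
      exact ⟨n - 1, Finset.mem_Ico.mpr (by omega), by omega⟩
    refine h1.trans ?_
    have h2 : ∑ n ∈ Finset.Ico m (m + N), ww T m (n + 1) ≤
        ∑ n ∈ Finset.Ico m (m + N), (((m : ℝ) / n) ^ (T - 1) * (m / (T - 1)) -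
      ((m : ℝ) / ((n + 1 : ℕ) : ℝ)) ^ (T - 1) * (m / (T - 1))) :=
      Finset.sum_le_sum fun n hn => ww_le_of_gt (by linarith) hm (Finset.mem_Ico.mp hn).1
    refine h2.trans ?_
    have h3 := Finset.sum_Ico_sub (fun n : ℕ => -(((m : ℝ) / n) ^ (T - 1) * (m / (T - 1))))
      (show m ≤ m + N by omega)
    have h4 : ∑ n ∈ Finset.Ico m (m + N), (((m : ℝ) / n) ^ (T - 1) * (m / (T - 1)) -
      ((m : ℝ) / ((n + 1 : ℕ) : ℝ)) ^ (T - 1) * (m / (T - 1))) =
      ∑ n ∈ Finset.Ico m (m + N), (-(((m : ℝ) / ((n + 1 : ℕ) : ℝ)) ^ (T - 1) * (m / (T - 1))) -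
        -(((m : ℝ) / n) ^ (T - 1) * (m / (T - 1)))) := by
      refine Finset.sum_congr rfl fun n _ => ?_
      ring
    rw [h4, h3, div_self hm0.ne', Real.one_rpow, one_mul]
    have h5 : 0 ≤ ((m : ℝ) / ((m + N : ℕ) : ℝ)) ^ (T - 1) * (m / (T - 1)) := by positivity
    linarith
  have mid : ∑ n ∈ S.filter (fun n => n = m), ww T m n ≤ 1 := by
    rw [Finset.sum_filter]
    rw [Finset.sum_ite_eq' S m (fun n => ww T m n)]
    split_ifs
    · exact ww_le_one (by linarith) m m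
    · exact zero_le_one
  have hsplit : ∑ n ∈ S, ww T m n = ∑ n ∈ S.filter (fun n => n < m), ww T m n +
      (∑ n ∈ S.filter (fun n => n = m), ww T m n + ∑ n ∈ S.filter (fun n => m < n), ww T m n) := by
    rw [Finset.sum_filter, Finset.sum_filter, Finset.sum_filter, ← Finset.sum_add_distrib,
      ← Finset.sum_add_distrib]
    refine Finset.sum_congr rfl fun n _ => ?_
    rcases lt_trichotomy n m with h | h | h
    · simp [h, h.ne, not_lt.mpr h.le]
    · subst h; simp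
    · simp [h, h.ne', not_lt.mpr h.le]
  rw [hsplit]
  have hT0 : 0 < T := by linarith
  have k1 : T * (m / (T + 1)) ≤ m := by
    rw [mul_div_assoc', div_le_iff₀ (by linarith)]
    nlinarith
  have k2 : T * (m / (T - 1)) ≤ 2 * m := by
    rw [mul_div_assoc', div_le_iff₀ hT1]
    nlinarith
  have k3 := mul_le_mul_of_nonneg_left (add_le_add low (add_le_add mid up)) hT0.le
  nlinarith

theorem ww_comm (T : ℝ) (m n : ℕ) : ww T m n = ww T n m := by
  unfold ww
  rw [abs_sub_comm]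

theorem nit_mul_conj (m n : ℕ) (t : ℝ) :
    nit m t * conj (nit n t) = Complex.exp (Complex.I * ((Real.log n - Real.log m : ℝ) : ℂ) * t) := by
  unfold nit
  rw [← Complex.exp_conj, ← Complex.exp_add]
  congr 1
  simp only [map_mul, map_neg, Complex.conj_ofReal, Complex.conj_I]
  push_cast
  ring

theorem integrable_term {T : ℝ} (hT : 0 < T) (c : ℝ) (z : ℂ) :
    Integrable fun t : ℝ => z * (Complex.exp (Complex.I * (c : ℂ) * t) * (gw T t : ℂ)) := by
  apply Integrable.const_mul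
  have h1 : Integrable (fun t : ℝ => ((gw T t : ℝ) : ℂ)) := (gw_integrable hT).ofReal
  refine h1.bdd_mul (c := 1) (by fun_prop) (Filter.Eventually.of_forall fun t => ?_)
  rw [show Complex.I * (c : ℂ) * t = ((c * t : ℝ) : ℂ) * Complex.I by push_cast; ring,
    Complex.norm_exp_ofReal_mul_I]

theorem quad_bound {ι : Type*} (S : Finset ι) (x : ι → ℝ) (w : ι → ι → ℝ)
    (hw : ∀ i j, 0 ≤ w i j) (hs : ∀ i j, w i j = w j i) :
    ∑ i ∈ S, ∑ j ∈ S, x i * x j * w i j ≤ ∑ i ∈ S, x i ^ 2 * ∑ j ∈ S, w i j := by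
  have h1 : ∑ i ∈ S, ∑ j ∈ S, x i * x j * w i j ≤
      ∑ i ∈ S, ∑ j ∈ S, (1 / 2 * (x i ^ 2 * w i j) + 1 / 2 * (x j ^ 2 * w j i)) := by
    refine Finset.sum_le_sum fun i _ => Finset.sum_le_sum fun j _ => ?_
    rw [hs j i]
    nlinarith [mul_nonneg (sq_nonneg (x i - x j)) (hw i j)]
  refine h1.trans (le_of_eq ?_)
  simp only [Finset.sum_add_distrib, ← Finset.mul_sum]
  rw [Finset.sum_comm (s := S) (t := S) (f := fun i j => x j ^ 2 * w j i)]
  simp only [Finset.mul_sum]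
  rw [← Finset.sum_add_distrib]
  refine Finset.sum_congr rfl fun i _ => ?_
  rw [← Finset.sum_add_distrib]
  refine Finset.sum_congr rfl fun j _ => ?_
  ring

theorem main {T : ℝ} (hT : 4 ≤ T) (S : Finset ℕ) (a : ℕ → ℂ) (hS : ∀ n ∈ S, 1 ≤ n) :
    ∫ t : ℝ, ‖∑ n ∈ S, a n * nit n t‖ ^ 2 * gw T t ≤
      3 * (Real.sqrt Real.pi * Real.exp 1) * ∑ n ∈ S, ‖a n‖ ^ 2 * (T + n) := by
  have hT0 : 0 < T := by linarith
  have e1 : ∀ t : ℝ, ((‖∑ n ∈ S, a n * nit n t‖ ^ 2 * gw T t : ℝ) : ℂ) =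
      ∑ m ∈ S, ∑ n ∈ S, (a m * conj (a n)) *
        (Complex.exp (Complex.I * ((Real.log n - Real.log m : ℝ) : ℂ) * t) * (gw T t : ℂ)) := by
    intro t
    rw [Complex.ofReal_mul, Complex.ofReal_pow, ← Complex.mul_conj', map_sum, Finset.sum_mul_sum,
      Finset.sum_mul]
    refine Finset.sum_congr rfl fun m _ => ?_
    rw [Finset.sum_mul]
    refine Finset.sum_congr rfl fun n _ => ?_
    rw [← nit_mul_conj, map_mul]
    ring
  have e2 : ((∫ t : ℝ, ‖∑ n ∈ S, a n * nit n t‖ ^ 2 * gw T t : ℝ) : ℂ) =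
      ∑ m ∈ S, ∑ n ∈ S, (a m * conj (a n)) *
        ∫ t : ℝ, Complex.exp (Complex.I * ((Real.log n - Real.log m : ℝ) : ℂ) * t) *
          (gw T t : ℂ) := by
    rw [← integral_complex_ofReal]
    simp only [e1]
    rw [integral_finsetSum _ (fun m _ => integrable_finsetSum _ fun n _ =>
      integrable_term hT0 _ _)]
    refine Finset.sum_congr rfl fun m _ => ?_
    rw [integral_finsetSum _ (fun n _ => integrable_term hT0 _ _)]
    refine Finset.sum_congr rfl fun n _ => ?_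
    rw [integral_const_mul]
  have e3 : ∫ t : ℝ, ‖∑ n ∈ S, a n * nit n t‖ ^ 2 * gw T t ≤
      ∑ m ∈ S, ∑ n ∈ S, ‖a m‖ * ‖a n‖ * (T * Real.sqrt Real.pi * (Real.exp 1 * ww T m n)) := by
    calc ∫ t : ℝ, ‖∑ n ∈ S, a n * nit n t‖ ^ 2 * gw T t ≤
          ‖((∫ t : ℝ, ‖∑ n ∈ S, a n * nit n t‖ ^ 2 * gw T t : ℝ) : ℂ)‖ := by
          rw [Complex.norm_real]
          exact Real.le_norm_self _
      _ ≤ _ := by
          rw [e2]
          refine (norm_sum_le _ _).trans (Finset.sum_le_sum fun m _ => ?_)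
          refine (norm_sum_le _ _).trans (Finset.sum_le_sum fun n _ => ?_)
          rw [norm_mul, norm_mul, norm_fourier hT0, RCLike.norm_conj]
          refine mul_le_mul_of_nonneg_left ?_ (by positivity)
          refine mul_le_mul_of_nonneg_left ?_ (by positivity)
          refine (gauss_le T _).trans ?_
          unfold ww
          rw [abs_of_pos hT0]
  refine e3.trans ?_
  have e4 : ∑ m ∈ S, ∑ n ∈ S, ‖a m‖ * ‖a n‖ * (T * Real.sqrt Real.pi * (Real.exp 1 * ww T m n)) =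
      (Real.sqrt Real.pi * Real.exp 1) * (T * ∑ m ∈ S, ∑ n ∈ S, ‖a m‖ * ‖a n‖ * ww T m n) := by
    simp only [Finset.mul_sum]
    refine Finset.sum_congr rfl fun m _ => Finset.sum_congr rfl fun n _ => ?_
    ring
  rw [e4, mul_assoc 3, mul_left_comm 3]
  refine mul_le_mul_of_nonneg_left ?_ (by positivity)
  have h5 := quad_bound S (fun n => ‖a n‖) (ww T) (ww_nonneg T) (ww_comm T)
  calc T * ∑ m ∈ S, ∑ n ∈ S, ‖a m‖ * ‖a n‖ * ww T m n ≤
        T * ∑ m ∈ S, ‖a m‖ ^ 2 * ∑ n ∈ S, ww T m n := mul_le_mul_of_nonneg_left h5 hT0.le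
    _ = ∑ m ∈ S, ‖a m‖ ^ 2 * (T * ∑ n ∈ S, ww T m n) := by
        rw [Finset.mul_sum]
        refine Finset.sum_congr rfl fun m _ => ?_
        ring
    _ ≤ ∑ m ∈ S, ‖a m‖ ^ 2 * (3 * (T + m)) := by
        refine Finset.sum_le_sum fun m hm => ?_
        exact mul_le_mul_of_nonneg_left (sum_ww_le hT (hS m hm) S hS) (sq_nonneg _)
    _ = _ := by
        rw [Finset.mul_sum]
        refine Finset.sum_congr rfl fun m _ => ?_
        ring

end GM

/-- [GM] Gaussian weighted mean value theorem. -/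
theorem gm : StatementGM := by
  refine ⟨3 * (Real.sqrt Real.pi * Real.exp 1), by positivity, ?_⟩
  intro T S a hT hS
  exact GM.main hT S a hS

end Pool.Agent.H24.MR
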