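import Pool.Agent.H24.MR.InterfaceCH

/-!
Numerical inequalities of the chain of scales ([CHc], [CHd]) of project T1 on `MP_c59857_nt`.
-/

set_option autoImplicit false

open Finset Filter

namespace Pool.Agent.H24.MR

namespace CHcd

theorem sq_le_four_pow (m : ℕ) : ((m : ℝ)) ^ 2 ≤ 4 ^ m := by
  have h : m < 2 ^ m := Nat.lt_two_pow_self
  have h1 : (m : ℝ) ≤ 2 ^ m := by exact_mod_cast h.le
  calc (m : ℝ) ^ 2 ≤ (2 ^ m) ^ 2 := by gcongr
    _ = 4 ^ m := by rw [← pow_mul, mul_comm, pow_mul]; norm_num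

theorem scale {b D : ℝ} (hb : 4 ≤ b) (hD : D ≤ b / 4) {m : ℕ} (hm : 1 ≤ m) (hD0 : 0 ≤ D) :
    (m : ℝ) ^ 2 * D ≤ b ^ m := by
  have h1 : b / 4 ≤ (b / 4) ^ m := le_self_pow₀ (by linarith) (by omega)
  calc (m : ℝ) ^ 2 * D ≤ 4 ^ m * (b / 4) ^ m := by
        refine mul_le_mul (sq_le_four_pow m) (hD.trans h1) hD0 (by positivity)
    _ = b ^ m := by rw [← mul_pow]; congr 1; ring

theorem scale2 {b a : ℝ} (ha : 1 ≤ a) (hb : 32 * a ≤ b) {m : ℕ} :
    16 * (m : ℝ) * a ^ m ≤ b ^ m ∨ m = 0 := by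
  rcases Nat.eq_zero_or_pos m with h | h
  · exact Or.inr h
  left
  have h1 : (m : ℝ) ≤ 2 ^ m := by exact_mod_cast (Nat.lt_two_pow_self (n := m)).le
  have h2 : (16 : ℝ) ≤ 16 ^ m := le_self_pow₀ (by norm_num) (by omega)
  have ha0 : 0 < a := by linarith
  calc 16 * (m : ℝ) * a ^ m ≤ 16 ^ m * 2 ^ m * a ^ m := by gcongr
    _ = (32 * a) ^ m := by rw [← mul_pow, ← mul_pow]; norm_num
    _ ≤ b ^ m := by gcongr

end CHcd

open CHcd

theorem chc : StatementCHc := by
  intro K A R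
  rcases Nat.eq_zero_or_pos A with hA | hA
  · -- no admissible `V`
    refine ⟨1, fun B hB j V V' h1 h2 _ _ => ?_⟩
    exfalso
    have h3 : (ys A B (j + 1) : ℝ) = 0 := by
      unfold ys
      rw [hA, zero_mul, zero_pow (by positivity)]
      simp
    have h4 : (0 : ℝ) < xs B (j + 1) := by
      unfold xs
      have : 0 < B := by omega
      positivity
    rw [h3] at h2
    linarith
  have ha : (1 : ℝ) ≤ A := by exact_mod_cast hA
  set a : ℝ := (A : ℝ) with ha_def
  set c0 : ℝ := 360 * (K + 1) + 40 * |R| + 560 * Real.log (2 * a) with hc0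
  -- choice of `B₀`
  have hlog : ∀ᶠ x : ℝ in atTop, ‖Real.log x‖ ≤ (1 / 8 / 560) * ‖id x‖ :=
    Real.isLittleO_log_id_atTop.def (by norm_num)
  have hev : ∀ᶠ x : ℝ in atTop, c0 + 560 * Real.log x ≤ x / 4 ∧ 32 * a ≤ x := by
    filter_upwards [hlog, eventually_ge_atTop (8 * c0), eventually_ge_atTop (32 * a),
      eventually_ge_atTop (1 : ℝ)] with x h1 h2 h3 h4
    refine ⟨?_, h3⟩
    simp only [id, Real.norm_eq_abs] at h1
    rw [abs_of_nonneg (by linarith : (0 : ℝ) ≤ x)] at h1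
    have := (le_abs_self _).trans h1
    linarith
  obtain ⟨x0, hx0⟩ := eventually_atTop.1 hev
  refine ⟨⌈x0⌉₊, fun B hB j V V' hV1 hV2 hV'1 hV'2 => ?_⟩
  have hBx : x0 ≤ (B : ℝ) := (Nat.le_ceil x0).trans (by exact_mod_cast hB)
  obtain ⟨hD, h32⟩ := hx0 B hBx
  set b : ℝ := (B : ℝ) with hb_def
  have hb32 : 32 ≤ b := by linarith
  have hb0 : 0 < b := by linarith
  have ha0 : 0 < a := by linarith
  set m : ℕ := 2 ^ j with hm_def
  have hm1 : 1 ≤ m := Nat.one_le_two_pow
  have hm1' : (1 : ℝ) ≤ m := by exact_mod_cast hm1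
  have hm0 : (0 : ℝ) < m := by linarith
  have hx1 : (xs B (j + 1) : ℝ) = b ^ (2 * m) := by
    unfold xs; rw [pow_succ, ← hm_def, mul_comm 2 m]; push_cast; rfl
  have hx0' : (xs B j : ℝ) = b ^ m := by
    unfold xs; push_cast; rfl
  have hy1 : (ys A B (j + 1) : ℝ) = (a * b) ^ (2 * m) := by
    unfold ys; rw [pow_succ, ← hm_def, mul_comm 2 m]; push_cast; rfl
  have hy0 : (ys A B j : ℝ) = (a * b) ^ m := by
    unfold ys; push_cast; rfl
  rw [hx1] at hV1
  rw [hy1] at hV2
  rw [hx0'] at hV'1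
  rw [hy0] at hV'2
  have hbm0 : 0 < b ^ m := by positivity
  have hV0 : 0 < V := lt_of_lt_of_le (by positivity) hV1
  have hV'0 : 0 < V' := lt_of_lt_of_le (by positivity) hV'1
  have hab1 : 1 ≤ a * b := one_le_mul_of_one_le_of_one_le ha (by linarith)
  have hlab : 0 ≤ Real.log (a * b) := Real.log_nonneg hab1
  have hl2ab : Real.log (2 * a * b) = Real.log (2 * a) + Real.log b := by
    rw [Real.log_mul (by positivity) (by positivity)]
  have hl2a : 0 ≤ Real.log (2 * a) := Real.log_nonneg (by linarith)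
  have hlb : 0 ≤ Real.log b := Real.log_nonneg (by linarith)
  have hlab2 : Real.log (a * b) ≤ Real.log (2 * a * b) :=
    Real.log_le_log (by positivity) (by linarith [mul_pos ha0 hb0])
  have hl2ab0 : 0 ≤ Real.log (2 * a * b) := hlab.trans hlab2
  -- the three scaled inequalities
  have hD' : 360 * (K + 1) + 40 * |R| + 560 * Real.log (2 * a * b) ≤ b / 4 := by
    rw [hl2ab]; linarith
  have hK0 : (0 : ℝ) ≤ K := Nat.cast_nonneg _
  have hR0 := abs_nonneg R
  have s1 : (m : ℝ) ^ 2 * (320 * Real.log (2 * a * b)) ≤ b ^ m :=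
    scale (by linarith) (by linarith) hm1 (by positivity)
  have hbb : b ^ m ≤ V := by
    refine le_trans ?_ hV1
    exact pow_le_pow_right₀ (by linarith) (by omega)
  have s2 : (m : ℝ) ^ 2 * (120 * (3 * (K + 1) + 2 * Real.log (a * b))) ≤ V :=
    (scale (by linarith) (by linarith) hm1 (by positivity)).trans hbb
  have s3 : (m : ℝ) ^ 2 * (40 * |R|) ≤ V :=
    (scale (by linarith) (by linarith) hm1 (by positivity)).trans hbb
  have s4 : 16 * (m : ℝ) * V' ≤ V := by
    rcases scale2 (m := m) ha h32 with h | h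
    · calc 16 * (m : ℝ) * V' ≤ 16 * (m : ℝ) * (a * b) ^ m := by gcongr
        _ = (16 * (m : ℝ) * a ^ m) * b ^ m := by rw [mul_pow]; ring
        _ ≤ b ^ m * b ^ m := by gcongr
        _ = b ^ (2 * m) := by rw [← pow_add]; congr 1; ring
        _ ≤ V := hV1
    · omega
  -- polynomial factors
  have hP1 : ((Hs K (j + 1) * ys A B (j + 1) + 1 : ℕ) : ℝ) ^ 2 *
      ((Hs K j * ys A B j + 1 : ℕ) : ℝ) ≤ Real.exp (V / (40 * m)) := by
    set T : ℝ := 3 * (K + 1) * m * (a * b) ^ (2 * m) with hT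
    have hT0 : 0 < T := by positivity
    have hp1 : (1 : ℝ) ≤ (a * b) ^ (2 * m) := one_le_pow₀ hab1
    have t1 : ((Hs K (j + 1) * ys A B (j + 1) + 1 : ℕ) : ℝ) ≤ T := by
      push_cast [Hs]
      rw [hy1, pow_succ]
      have e : ((2 : ℝ) ^ j) = m := by rw [hm_def]; push_cast; rfl
      rw [e, hT]
      have h1 : (1 : ℝ) ≤ (K + 1) * m * (a * b) ^ (2 * m) :=
        one_le_mul_of_one_le_of_one_le
          (one_le_mul_of_one_le_of_one_le (by linarith) hm1') hp1
      have h2 : (K : ℝ) * (m * 2) * (a * b) ^ (2 * m) ≤ 2 * ((K + 1) * m * (a * b) ^ (2 * m)) := by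
        have h3 : 0 ≤ (m : ℝ) * (a * b) ^ (2 * m) := by positivity
        linarith
      linarith
    have t2 : ((Hs K j * ys A B j + 1 : ℕ) : ℝ) ≤ T := by
      push_cast [Hs]
      rw [hy0]
      have e : ((2 : ℝ) ^ j) = m := by rw [hm_def]; push_cast; rfl
      rw [e, hT]
      have h0 : (a * b) ^ m ≤ (a * b) ^ (2 * m) := pow_le_pow_right₀ hab1 (by omega)
      have h1 : (1 : ℝ) ≤ (K + 1) * m * (a * b) ^ (2 * m) :=
        one_le_mul_of_one_le_of_one_le
          (one_le_mul_of_one_le_of_one_le (by linarith) hm1') hp1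
      have h2 : (K : ℝ) * m * (a * b) ^ m ≤ (K + 1) * m * (a * b) ^ (2 * m) := by
        have h3 : (K : ℝ) * m * (a * b) ^ m ≤ K * m * (a * b) ^ (2 * m) := by gcongr
        have h4 : 0 ≤ (m : ℝ) * (a * b) ^ (2 * m) := by positivity
        linarith
      linarith
    have hlogT : Real.log T ≤ m * (3 * (K + 1) + 2 * Real.log (a * b)) := by
      rw [hT, Real.log_mul (by positivity) (by positivity), Real.log_pow]
      have h1 : Real.log (3 * (K + 1) * m) ≤ 3 * (K + 1) * m := by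
        have := Real.log_le_sub_one_of_pos (show (0 : ℝ) < 3 * (K + 1) * m by positivity)
        linarith
      push_cast
      linarith
    calc ((Hs K (j + 1) * ys A B (j + 1) + 1 : ℕ) : ℝ) ^ 2 * ((Hs K j * ys A B j + 1 : ℕ) : ℝ)
        ≤ T ^ 2 * T := by gcongr
      _ = Real.exp (3 * Real.log T) := by
        rw [show (3 : ℝ) * Real.log T = Real.log (T ^ 3) by rw [Real.log_pow]; push_cast; ring,
          Real.exp_log (by positivity)]
        ring
      _ ≤ Real.exp (V / (40 * m)) := by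
        refine Real.exp_le_exp.2 ?_
        rw [le_div_iff₀ (by positivity)]
        calc 3 * Real.log T * (40 * m) ≤ 3 * (m * (3 * (K + 1) + 2 * Real.log (a * b))) * (40 * m) := by
              gcongr
          _ = (m : ℝ) ^ 2 * (120 * (3 * (K + 1) + 2 * Real.log (a * b))) := by ring
          _ ≤ V := s2
  -- factorials
  set l : ℕ := ⌈V / V'⌉₊ with hl
  have hl1 : (l : ℝ) ≤ V / V' + 1 := (Nat.ceil_lt_add_one (by positivity)).le
  have hlp : (l : ℝ) + 1 ≤ 2 * V / b ^ m := by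
    have h1 : V / V' ≤ V / b ^ m := div_le_div_of_nonneg_left hV0.le hbm0 hV'1
    have h2 : 2 ≤ V / b ^ m := by
      rw [le_div_iff₀ hbm0]
      calc 2 * b ^ m ≤ b ^ m * b ^ m := by
            have : (2 : ℝ) ≤ b ^ m := le_trans (by linarith) (le_self_pow₀ (by linarith) (by omega))
            gcongr
        _ = b ^ (2 * m) := by rw [← pow_add]; congr 1; ring
        _ ≤ V := hV1
    have h3 : 2 * V / b ^ m = V / b ^ m + V / b ^ m := by ring
    rw [h3]
    linarith
  have hl0 : (0 : ℝ) < l + 1 := by positivity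
  have hlog1 : Real.log (l + 1) ≤ 2 * m * Real.log (2 * a * b) := by
    have h1 : (l : ℝ) + 1 ≤ (2 * a * b) ^ (2 * m) := by
      calc (l : ℝ) + 1 ≤ 2 * V / b ^ m := hlp
        _ ≤ 2 * V / 1 := by
          refine div_le_div_of_nonneg_left (by positivity) one_pos (one_le_pow₀ (by linarith))
        _ = 2 * V := by ring
        _ ≤ 2 ^ (2 * m) * (a * b) ^ (2 * m) := by
          refine mul_le_mul (le_self_pow₀ (by norm_num) (by omega)) hV2 hV0.le (by positivity)
        _ = (2 * a * b) ^ (2 * m) := by rw [← mul_pow]; congr 1; ring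
    calc Real.log (l + 1) ≤ Real.log ((2 * a * b) ^ (2 * m)) := Real.log_le_log hl0 h1
      _ = _ := by rw [Real.log_pow]; push_cast; ring
  have hP2 : ((l.factorial : ℝ) ^ 2 * ((l : ℝ) + 1) ^ 2) ≤ Real.exp (V / (40 * m)) := by
    have h1 : (l.factorial : ℝ) * ((l : ℝ) + 1) ≤ ((l : ℝ) + 1) ^ (l + 1) := by
      have := Nat.factorial_le_pow (l + 1)
      rw [Nat.factorial_succ] at this
      have h2 : ((l + 1) * l.factorial : ℝ) ≤ ((l : ℝ) + 1) ^ (l + 1) := by exact_mod_cast this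
      linarith
    calc ((l.factorial : ℝ) ^ 2 * ((l : ℝ) + 1) ^ 2)
        = ((l.factorial : ℝ) * ((l : ℝ) + 1)) ^ 2 := by ring
      _ ≤ (((l : ℝ) + 1) ^ (l + 1)) ^ 2 := by gcongr
      _ = Real.exp (2 * (l + 1) * Real.log (l + 1)) := by
        rw [show 2 * ((l : ℝ) + 1) * Real.log (l + 1) = Real.log ((((l : ℝ) + 1) ^ (l + 1)) ^ 2) by
          rw [Real.log_pow, Real.log_pow]; push_cast; ring, Real.exp_log (by positivity)]
      _ ≤ Real.exp (V / (40 * m)) := by
        refine Real.exp_le_exp.2 ?_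
        have h3 : 2 * ((l : ℝ) + 1) * Real.log (l + 1) ≤
            2 * (2 * V / b ^ m) * (2 * m * Real.log (2 * a * b)) := by
          have : 0 ≤ Real.log ((l : ℝ) + 1) := Real.log_nonneg (by linarith [Nat.cast_nonneg (α := ℝ) l])
          gcongr
        refine h3.trans ?_
        rw [le_div_iff₀ (by positivity)]
        have h4 : 2 * (2 * V / b ^ m) * (2 * m * Real.log (2 * a * b)) * (40 * m) =
            V * (((m : ℝ) ^ 2 * (320 * Real.log (2 * a * b))) / b ^ m) := by ring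
        rw [h4]
        have h5 : ((m : ℝ) ^ 2 * (320 * Real.log (2 * a * b))) / b ^ m ≤ 1 := by
          rw [div_le_one hbm0]; exact s1
        exact mul_le_of_le_one_right hV0.le h5
  -- the exponential
  have hP3 : Real.exp (-(2 * al (j + 1) * V) + 2 * al j * V' * l) ≤
      Real.exp (-(3 * (V / (40 * m)))) := by
    refine Real.exp_le_exp.2 ?_
    have e1 : al j = 1 / 5 - 1 / 10 / m := by unfold al; rw [hm_def]; push_cast; rfl
    have e2 : al (j + 1) = 1 / 5 - 1 / 10 / (m * 2) := by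
      unfold al; rw [pow_succ, hm_def]; push_cast; rfl
    have h1 : V' * l ≤ V + V' := by
      calc V' * l ≤ V' * (V / V' + 1) := by gcongr
        _ = V + V' := by field_simp
    have h2 : 0 ≤ al j := by
      rw [e1]
      have : 1 / 10 / (m : ℝ) ≤ 1 / 10 := div_le_self (by norm_num) hm1'
      linarith
    have h3 : 2 * al j * V' * l ≤ 2 * al j * (V + V') := by
      rw [mul_assoc]; gcongr
    have h4 : al j ≤ 1 / 5 := by rw [e1]; linarith [show 0 ≤ 1 / 10 / (m : ℝ) by positivity]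
    have h5 : 2 * al j * V' ≤ 2 * (1 / 5) * V' := by gcongr
    have h6 : -(2 * al (j + 1) * V) + 2 * al j * V = - (4 * (V / (40 * m))) := by
      rw [e1, e2]; field_simp; ring
    have h7 : 2 * (1 / 5) * V' ≤ V / (40 * m) := by
      rw [le_div_iff₀ (by positivity)]
      linarith
    linarith
  calc ((Hs K (j + 1) * ys A B (j + 1) + 1 : ℕ) : ℝ) ^ 2 * ((Hs K j * ys A B j + 1 : ℕ) : ℝ)
      * (((l).factorial : ℝ) ^ 2 * ((l : ℝ) + 1) ^ 2)
      * Real.exp (-(2 * al (j + 1) * V) + 2 * al j * V' * l)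
      ≤ Real.exp (V / (40 * m)) * Real.exp (V / (40 * m)) * Real.exp (-(3 * (V / (40 * m)))) := by
        gcongr
    _ = Real.exp (-(V / (40 * m))) := by
        rw [← Real.exp_add, ← Real.exp_add]; congr 1; ring
    _ ≤ Real.exp (-(R * 2 ^ j)) := by
        refine Real.exp_le_exp.2 (neg_le_neg ?_)
        have e : ((2 : ℝ) ^ j) = m := by rw [hm_def]; push_cast; rfl
        rw [e, le_div_iff₀ (by positivity)]
        calc R * m * (40 * m) = (m : ℝ) ^ 2 * (40 * R) := by ring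
          _ ≤ (m : ℝ) ^ 2 * (40 * |R|) := by gcongr; exact le_abs_self R
          _ ≤ V := s3

theorem chd : StatementCHd := by
  intro K A δ hδ
  set c : ℝ := K * A + 1 with hc
  have hc0 : 0 < c := by positivity
  refine ⟨max 1 ⌈750 * c ^ 2 / δ⌉₊, fun B hB V hV => ?_⟩
  have hB1 : 1 ≤ B := (le_max_left _ _).trans hB
  have hB2 : 750 * c ^ 2 / δ ≤ (B : ℝ) :=
    (Nat.le_ceil _).trans (by exact_mod_cast (le_max_right _ _).trans hB)
  set b : ℝ := (B : ℝ) with hb
  have hb1 : (1 : ℝ) ≤ b := by rw [hb]; exact_mod_cast hB1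
  have hb0 : 0 < b := by linarith
  have e0 : al 0 = 1 / 10 := by unfold al; norm_num
  have hx : (xs B 0 : ℝ) = b := by unfold xs; simp [hb]
  rw [hx] at hV
  have h1 : ((Hs K 0 * ys A B 0 + 1 : ℕ) : ℝ) ≤ c * b := by
    unfold Hs ys
    push_cast
    rw [hc]
    have : (K : ℝ) * 1 * (A * B) ^ 1 + 1 = K * A * b + 1 := by rw [hb]; ring
    rw [this]
    linarith
  have h2 : Real.exp (-(2 * al 0 * V)) ≤ (b ^ 3 / 750)⁻¹ := by
    rw [Real.exp_neg]
    refine inv_anti₀ (by positivity) ?_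
    have h3 := Real.pow_div_factorial_le_exp (b / 5) (by positivity) 3
    have h4 : (b / 5) ^ 3 / (Nat.factorial 3 : ℝ) = b ^ 3 / 750 := by
      rw [show Nat.factorial 3 = 6 from rfl]; push_cast; ring
    rw [h4] at h3
    refine h3.trans (Real.exp_le_exp.2 ?_)
    rw [e0]
    linarith
  calc ((Hs K 0 * ys A B 0 + 1 : ℕ) : ℝ) ^ 2 * Real.exp (-(2 * al 0 * V))
      ≤ (c * b) ^ 2 * (b ^ 3 / 750)⁻¹ := by gcongr
    _ = 750 * c ^ 2 / b := by field_simp
    _ ≤ δ := by
      rw [div_le_iff₀ hb0]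
      rw [div_le_iff₀ hδ] at hB2
      linarith

end Pool.Agent.H24.MR
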