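import Pool.Agent.H9.MR.MO

/-!
# [LV]: number of unit intervals on which a prime polynomial is large
-/

set_option autoImplicit false

open Finset Filter MeasureTheory
open scoped ComplexConjugate

namespace Pool.Agent.H24.MR

namespace LV

open MO

/-- the unit mass at `1` -/
def del (k : ℕ) : ℝ := if k = 1 then 1 else 0

theorem del_nonneg (k : ℕ) : 0 ≤ del k := by unfold del; split_ifs <;> norm_num

section

variable {P : Finset ℕ}

theorem TTi_zero (l : ℕ) : (TT P)^[l] (fun _ => (0 : ℝ)) = fun _ => 0 := by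
  induction l with
  | zero => rfl
  | succ l ih =>
    rw [Function.iterate_succ_apply', ih]
    funext k
    unfold TT
    exact Finset.sum_eq_zero fun p _ => by split_ifs <;> rfl

theorem del_pair (hP : ∀ p ∈ P, p.Prime) (hs : ∑ p ∈ P, (1 : ℝ) / p ≤ 1) (N l : ℕ) :
    ipN N ((TT P)^[l] del) ((TT P)^[l] del) ≤ l.factorial := by
  induction l with
  | zero =>
    simp only [Function.iterate_zero, id_eq, Nat.factorial_zero, Nat.cast_one]
    unfold ipN
    have h1 : ∀ k ∈ Finset.Icc 1 N, del k * del k / k = if k = 1 then (1 : ℝ) else 0 := by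
      intro k _
      unfold del
      split_ifs with h
      · subst h; norm_num
      · norm_num
    rw [Finset.sum_congr rfl h1, Finset.sum_ite_eq']
    split_ifs <;> norm_num
  | succ l ih =>
    have hn := TTi_nonneg (P := P) del_nonneg l
    have hn1 := TTi_nonneg (P := P) del_nonneg (l + 1)
    conv_lhs => rw [Function.iterate_succ_apply' (TT P) l del]
    rw [← Function.iterate_succ_apply' (TT P) l del]
    have h0 : ipN N (TT P ((TT P)^[l] del)) ((TT P)^[l + 1] del) ≤
        ∑ p ∈ P, (1 / (p : ℝ)) * ipN N ((TT P)^[l] del) (fun m => (TT P)^[l + 1] del (p * m)) :=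
      ipN_TT_le hP hn hn1
    rw [← Function.iterate_succ_apply' (TT P) l del] at h0
    refine h0.trans ?_
    have hstep : ∀ q ∈ P, ipN N ((TT P)^[l] del) (fun m => (TT P)^[l + 1] del (q * m)) ≤
        (l + 1).factorial := by
      intro q hq
      have h1 : ipN N ((TT P)^[l] del) (fun m => (TT P)^[l + 1] del (q * m)) ≤
          ipN N ((TT P)^[l] del) (fun m => ((l + 1 : ℕ) : ℝ) * (TT P)^[l] del m) := by
        refine ipN_mono hn (fun k => hn1 _) (fun _ => le_rfl) fun k => ?_
        have h2 := D_TTi_le hP hq del_nonneg (l + 1) k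
        have h3 : (fun m => del (q * m)) = fun _ => (0 : ℝ) := by
          funext m
          unfold del
          rw [if_neg]
          intro h
          have := Nat.eq_one_of_mul_eq_one_right h
          exact (hP q hq).one_lt.ne' this
        rw [h3, TTi_zero, zero_add, Nat.add_sub_cancel] at h2
        exact h2
      refine h1.trans ?_
      rw [ipN_smul, Nat.factorial_succ]
      push_cast
      exact mul_le_mul_of_nonneg_left ih (by positivity)
    calc ∑ p ∈ P, (1 / (p : ℝ)) * ipN N ((TT P)^[l] del)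
          (fun m => (TT P)^[l + 1] del (p * m)) ≤
        ∑ p ∈ P, (1 / (p : ℝ)) * ((l + 1).factorial : ℝ) :=
          Finset.sum_le_sum fun p hp => mul_le_mul_of_nonneg_left (hstep p hp) (by positivity)
      _ ≤ _ := by
          rw [← Finset.sum_mul]
          have : (0 : ℝ) ≤ ((l + 1).factorial : ℝ) := by positivity
          nlinarith

theorem support_TTi_upper (hP : ∀ p ∈ P, p.Prime) {V : ℝ} (hV : ∀ p ∈ P, (p : ℝ) ≤ Real.exp V)
    (l : ℕ) : ∀ k : ℕ, (TT P)^[l] del k ≠ 0 → (k : ℝ) ≤ Real.exp (l * V) := by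
  induction l with
  | zero =>
    intro k hk
    simp only [Function.iterate_zero, id_eq] at hk
    unfold del at hk
    by_cases h : k = 1
    · subst h; simp
    · rw [if_neg h] at hk; exact absurd rfl hk
  | succ l ih =>
    intro k hk
    rw [Function.iterate_succ_apply'] at hk
    unfold TT at hk
    obtain ⟨p, hp, hpk⟩ := Finset.exists_ne_zero_of_sum_ne_zero hk
    by_cases hd : p ∣ k
    · rw [if_pos hd] at hpk
      obtain ⟨m, rfl⟩ := hd
      rw [Nat.mul_div_cancel_left m (hP p hp).pos] at hpk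
      have h1 := ih m hpk
      push_cast
      rw [show ((l : ℝ) + 1) * V = V + l * V by ring, Real.exp_add]
      exact mul_le_mul (hV p hp) h1 (Nat.cast_nonneg m) (Real.exp_pos _).le
    · rw [if_neg hd] at hpk
      exact absurd rfl hpk

end

/-- `∑ c_k k^{-it}` -/
noncomputable def dp (N : ℕ) (c : ℕ → ℂ) (t : ℝ) : ℂ := ∑ k ∈ Finset.Icc 1 N, c k * nit k t

/-- coefficients of the derivative -/
noncomputable def dc (c : ℕ → ℂ) (k : ℕ) : ℂ := -(Real.log k : ℂ) * Complex.I * c k

theorem hasDerivAt_nit (k : ℕ) (t : ℝ) :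
    HasDerivAt (nit k) (-(Real.log k : ℂ) * Complex.I * nit k t) t := by
  unfold nit
  have h1 : HasDerivAt (fun t : ℝ => -((t * Real.log k : ℝ) : ℂ) * Complex.I)
      (-(Real.log k : ℂ) * Complex.I) t := by
    have h2 : HasDerivAt (fun t : ℝ => ((t * Real.log k : ℝ) : ℂ)) ((1 * Real.log k : ℝ) : ℂ) t :=
      ((hasDerivAt_id t).mul_const (Real.log k)).ofReal_comp
    rw [one_mul] at h2
    exact h2.neg.mul_const Complex.I
  have h3 := h1.cexp
  rw [mul_comm] at h3
  exact h3

theorem hasDerivAt_dp (N : ℕ) (c : ℕ → ℂ) (t : ℝ) :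
    HasDerivAt (dp N c) (dp N (dc c) t) t := by
  unfold dp
  apply HasDerivAt.fun_sum
  intro k _
  have h := (hasDerivAt_nit k t).const_mul (c k)
  refine h.congr_deriv ?_
  unfold dc
  ring

theorem continuous_dp (N : ℕ) (c : ℕ → ℂ) : Continuous (dp N c) :=
  continuous_iff_continuousAt.mpr fun t => (hasDerivAt_dp N c t).continuousAt

theorem dp_bdd (N : ℕ) (c : ℕ → ℂ) (t : ℝ) : ‖dp N c t‖ ≤ ∑ k ∈ Finset.Icc 1 N, ‖c k‖ := by
  unfold dp
  refine (norm_sum_le _ _).trans (Finset.sum_le_sum fun k _ => ?_)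
  rw [norm_mul]
  unfold nit
  rw [show -((t * Real.log k : ℝ) : ℂ) * Complex.I = ((-(t * Real.log k) : ℝ) : ℂ) * Complex.I by
    push_cast; ring, Complex.norm_exp_ofReal_mul_I, mul_one]

theorem integrable_dp {T : ℝ} (hT : 0 < T) (N : ℕ) (c : ℕ → ℂ) :
    Integrable fun t : ℝ => ‖dp N c t‖ ^ 2 * Real.exp (-(t / T) ^ 2) := by
  have h1 := GM.gw_integrable hT
  refine h1.bdd_mul (c := (∑ k ∈ Finset.Icc 1 N, ‖c k‖) ^ 2)
    ((continuous_dp N c).norm.pow 2).aestronglyMeasurable (Filter.Eventually.of_forall fun t => ?_)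
  rw [Real.norm_eq_abs, abs_of_nonneg (sq_nonneg _)]
  exact pow_le_pow_left₀ (norm_nonneg _) (dp_bdd N c t) 2

/-- Sobolev/Gallagher inequality. -/
theorem sobolev (N : ℕ) (c : ℕ → ℂ) (a : ℝ) {t₀ : ℝ} (ht : t₀ ∈ Set.Icc a (a + 1)) :
    ‖dp N c t₀‖ ^ 2 ≤ ∫ t in a..(a + 1), (2 * ‖dp N c t‖ ^ 2 + ‖dp N (dc c) t‖ ^ 2) := by
  set φ : ℝ → ℝ := fun t => ‖dp N c t‖ ^ 2 with hφ
  set ψ : ℝ → ℝ := fun t => ‖dp N c t‖ ^ 2 + ‖dp N (dc c) t‖ ^ 2 with hψ
  set φ' : ℝ → ℝ := fun t => 2 * (dp N (dc c) t * conj (dp N c t)).re with hφ'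
  have hd : ∀ t, HasDerivAt φ (φ' t) t := by
    intro t
    have h1 := hasDerivAt_dp N c t
    have h2 : HasDerivAt (fun t => dp N c t * conj (dp N c t))
        (dp N (dc c) t * conj (dp N c t) + dp N c t * conj (dp N (dc c) t)) t :=
      h1.mul h1.star
    have h3 : HasDerivAt (fun t => (dp N c t * conj (dp N c t)).re)
        (dp N (dc c) t * conj (dp N c t) + dp N c t * conj (dp N (dc c) t)).re t := by
      have h4 := Complex.reCLM.hasFDerivAt.comp_hasDerivAt t h2
      exact h4
    have h5 : (fun t => (dp N c t * conj (dp N c t)).re) = φ := by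
      funext t
      rw [Complex.mul_conj']
      simp only [hφ]
      rw [← Complex.ofReal_pow, Complex.ofReal_re]
    rw [h5] at h3
    refine h3.congr_deriv ?_
    simp only [hφ']
    rw [Complex.add_re]
    have h6 : dp N c t * conj (dp N (dc c) t) = conj (dp N (dc c) t * conj (dp N c t)) := by
      rw [map_mul, Complex.conj_conj, mul_comm]
    rw [h6, Complex.conj_re]
    ring
  have hcφ' : Continuous φ' := by
    simp only [hφ']
    exact continuous_const.mul (Complex.continuous_re.comp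
      ((continuous_dp N _).mul (Complex.continuous_conj.comp (continuous_dp N c))))
  have hcψ : Continuous ψ := ((continuous_dp N c).norm.pow 2).add ((continuous_dp N _).norm.pow 2)
  have hcφ : Continuous φ := (continuous_dp N c).norm.pow 2
  have hle : ∀ t, |φ' t| ≤ ψ t := by
    intro t
    simp only [hφ', hψ]
    rw [abs_mul, abs_of_pos (by norm_num : (0 : ℝ) < 2)]
    have h1 := Complex.abs_re_le_norm (dp N (dc c) t * conj (dp N c t))
    rw [norm_mul, RCLike.norm_conj] at h1
    nlinarith [sq_nonneg (‖dp N c t‖ - ‖dp N (dc c) t‖)]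
  have hψ0 : ∀ t, 0 ≤ ψ t := fun t => (abs_nonneg _).trans (hle t)
  have key : ∀ s ∈ Set.Icc a (a + 1), φ t₀ ≤ φ s + ∫ t in a..(a + 1), ψ t := by
    intro s hs
    have h1 : ∫ t in s..t₀, φ' t = φ t₀ - φ s :=
      intervalIntegral.integral_eq_sub_of_hasDerivAt (fun t _ => hd t)
        (hcφ'.intervalIntegrable _ _)
    have h2 : |∫ t in s..t₀, φ' t| ≤ |∫ t in s..t₀, ψ t| := by
      have := intervalIntegral.norm_integral_le_abs_of_norm_le (f := φ') (g := ψ) (μ := volume)
        (a := s) (b := t₀) (Filter.Eventually.of_forall fun t => by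
          rw [Real.norm_eq_abs]; exact hle t) (hcψ.intervalIntegrable _ _)
      rwa [Real.norm_eq_abs] at this
    have h3 : |∫ t in s..t₀, ψ t| ≤ ∫ t in a..(a + 1), ψ t := by
      rcases le_total s t₀ with h | h
      · rw [abs_of_nonneg (intervalIntegral.integral_nonneg h fun t _ => hψ0 t)]
        exact intervalIntegral.integral_mono_interval hs.1 h ht.2
          (Filter.Eventually.of_forall hψ0) (hcψ.intervalIntegrable _ _)
      · rw [intervalIntegral.integral_symm, abs_neg,
          abs_of_nonneg (intervalIntegral.integral_nonneg h fun t _ => hψ0 t)]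
        exact intervalIntegral.integral_mono_interval ht.1 h hs.2
          (Filter.Eventually.of_forall hψ0) (hcψ.intervalIntegrable _ _)
    have h4 := le_abs_self (∫ t in s..t₀, φ' t)
    rw [h1] at h4 h2
    linarith
  have h5 : ∫ s in a..(a + 1), φ t₀ ≤ ∫ s in a..(a + 1), (φ s + ∫ t in a..(a + 1), ψ t) := by
    refine intervalIntegral.integral_mono_on (by linarith) (continuous_const.intervalIntegrable _ _)
      ((hcφ.add continuous_const).intervalIntegrable _ _) key
  rw [intervalIntegral.integral_add (hcφ.intervalIntegrable _ _)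
    (continuous_const.intervalIntegrable _ _), intervalIntegral.integral_const,
    intervalIntegral.integral_const, add_sub_cancel_left, one_smul, one_smul,
    ← intervalIntegral.integral_add (hcφ.intervalIntegrable _ _) (hcψ.intervalIntegrable _ _)] at h5
  refine h5.trans (le_of_eq ?_)
  congr 1
  funext t
  simp only [hφ, hψ]
  ring

/-- Sum over disjoint unit intervals. -/
theorem sum_intervals_le {H : ℝ → ℝ} (hH0 : ∀ t, 0 ≤ H t) (hH : Integrable H) (S : Finset ℤ) :
    ∑ j ∈ S, ∫ t in (j : ℝ)..(j + 1), H t ≤ ∫ t, H t := by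
  have h1 : ∑ j ∈ S, ∫ t in (j : ℝ)..(j + 1), H t =
      ∑ j ∈ S, ∫ t in Set.Ioc (j : ℝ) (j + 1), H t := by
    refine Finset.sum_congr rfl fun j _ => ?_
    rw [intervalIntegral.integral_of_le (by linarith)]
  rw [h1, ← integral_biUnion_finset S (fun j _ => measurableSet_Ioc) ?_
    (fun j _ => hH.integrableOn)]
  · exact setIntegral_le_integral hH (Filter.Eventually.of_forall hH0)
  · intro i _ j _ hij
    refine Set.disjoint_left.mpr fun x hx hx' => hij ?_
    have h2 : (i : ℝ) < j + 1 := hx.1.trans_le hx'.2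
    have h3 : (j : ℝ) < i + 1 := hx'.1.trans_le hx.2
    have h4 : i < j + 1 := by exact_mod_cast h2
    have h5 : j < i + 1 := by exact_mod_cast h3
    omega

end LV

open MO LV in
/-- [LV] -/
theorem lv : StatementLV := by
  obtain ⟨CG, hCG, hGM⟩ := gm
  refine ⟨54 * CG, by positivity, ?_⟩
  intro P V X lam₀ l S hV hX hP hs hXl hlam hl hS
  have hPp : ∀ p ∈ P, p.Prime := fun p hp => (hP p hp).1
  set c : ℕ → ℂ := fun k => if k = 1 then 1 else 0 with hc
  have hsupp0 : ∀ k, 1 < k → c k = 0 := by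
    intro k hk
    simp only [hc]
    rw [if_neg (by omega)]
  have hcb : ∀ k, 1 ≤ k → ‖c k‖ ≤ del k / k := by
    intro k _
    simp only [hc]
    unfold del
    split_ifs with h
    · subst h; simp
    · simp
  obtain ⟨N, hN1, hN2⟩ := expand hPp hsupp0 l
  set cl := (TTc P)^[l] c with hcl
  set g := (TT P)^[l] del with hg
  have hQ : ∀ t : ℝ, QP P t ^ l = dp N cl t := by
    intro t
    have h1 := hN2 t
    have h2 : ∑ k ∈ Finset.Icc 1 1, c k * nit k t = 1 := by
      rw [Finset.Icc_self, Finset.sum_singleton]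
      simp only [hc, if_true]
      unfold nit
      simp
    rw [h2, mul_one] at h1
    exact h1
  have hg0 := TTi_nonneg (P := P) del_nonneg l
  rw [← hg] at hg0
  have hclb := TTci_bound hPp hcb l
  rw [← hcl, ← hg] at hclb
  have hsup : ∀ k : ℕ, g k ≠ 0 → X ≤ k := by
    intro k hk
    have := support_TTi hPp (V := V) (fun p hp => (hP p hp).2.1) (g := del) (y := 1)
      zero_le_one (fun k hk => by
        unfold del at hk
        by_contra hcon
        rw [if_neg (fun h => hcon (by subst h; simp))] at hk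
        exact hk rfl) l k hk
    rw [mul_one] at this
    linarith
  set D : ℝ := l * (V + 1) with hD
  have hl1 : (1 : ℝ) ≤ l := by exact_mod_cast hl
  have hD1 : 1 ≤ D := by
    rw [hD]
    nlinarith
  have hsupu : ∀ k : ℕ, g k ≠ 0 → (k : ℝ) ≤ Real.exp D := fun k hk =>
    support_TTi_upper hPp (fun p hp => (hP p hp).2.2) l k hk
  have hT : (4 : ℝ) ≤ 5 * X := by linarith
  have hT0 : (0 : ℝ) < 5 * X := by linarith
  -- first mean value
  have m1 := mean_le hCG hGM (K := 5) hT (N := N) hg0 hclb (fun k hk => by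
    have := hsup k hk
    linarith)
  -- second mean value
  have hdcb : ∀ k, 1 ≤ k → ‖dc cl k‖ ≤ (D * g k) / k := by
    intro k hk
    unfold dc
    rw [norm_mul, norm_mul, norm_neg, Complex.norm_I, mul_one, Complex.norm_real]
    have hk0 : (0 : ℝ) < k := by exact_mod_cast hk
    have hlog : 0 ≤ Real.log k := Real.log_nonneg (by exact_mod_cast hk)
    rw [Real.norm_eq_abs, abs_of_nonneg hlog]
    by_cases h0 : g k = 0
    · have := hclb k hk
      rw [h0, zero_div] at this
      have h1 : ‖cl k‖ = 0 := le_antisymm this (norm_nonneg _)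
      rw [h1, h0]; simp
    · have h1 : Real.log k ≤ D := by
        have := Real.log_le_log hk0 (hsupu k h0)
        rwa [Real.log_exp] at this
      calc Real.log k * ‖cl k‖ ≤ D * (g k / k) :=
            mul_le_mul h1 (hclb k hk) (norm_nonneg _) (by linarith)
        _ = _ := by ring
  have m2 := mean_le hCG hGM (K := 5) hT (N := N) (g := fun k => D * g k)
    (fun k => mul_nonneg (by linarith) (hg0 k)) hdcb (fun k hk => by
      have h1 : g k ≠ 0 := by
        intro h
        apply hk
        simp [h]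
      have := hsup k h1
      linarith)
  have hipD : ipN N (fun k => D * g k) (fun k => D * g k) = D ^ 2 * ipN N g g := by
    rw [ipN_smul, ipN_comm, ipN_smul]
    ring
  have hpair : ipN N g g ≤ l.factorial := del_pair hPp hs N l
  rw [hipD] at m2
  -- the function H
  set w : ℝ → ℝ := fun t => Real.exp (-(t / (5 * X)) ^ 2) with hw
  set H : ℝ → ℝ := fun t => (2 * ‖dp N cl t‖ ^ 2 + ‖dp N (dc cl) t‖ ^ 2) * w t with hH
  have i1 := integrable_dp hT0 N cl
  have i2 := integrable_dp hT0 N (dc cl)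
  have hHint : Integrable H := by
    have h3 := (i1.const_mul 2).add i2
    refine h3.congr (Filter.Eventually.of_forall fun t => ?_)
    simp only [hH, hw, Pi.add_apply]
    ring
  have hHcont : Continuous H := by
    simp only [hH, hw]
    have := continuous_dp N cl
    have := continuous_dp N (dc cl)
    fun_prop
  have hHI : ∫ t, H t ≤ CG * (18 * D ^ 2 * l.factorial) := by
    have h1 : ∫ t, H t = 2 * (∫ t : ℝ, ‖dp N cl t‖ ^ 2 * Real.exp (-(t / (5 * X)) ^ 2)) +
        ∫ t : ℝ, ‖dp N (dc cl) t‖ ^ 2 * Real.exp (-(t / (5 * X)) ^ 2) := by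
      rw [← integral_const_mul, ← integral_add (i1.const_mul 2) i2]
      congr 1
      funext t
      simp only [hH, hw]
      ring
    rw [h1]
    have hI0 : 0 ≤ ipN N g g := ipN_nonneg hg0 hg0
    have hfac : (0 : ℝ) ≤ l.factorial := Nat.cast_nonneg _
    have hD2 : 1 ≤ D ^ 2 := one_le_pow₀ hD1
    have m1' : ∫ t : ℝ, ‖dp N cl t‖ ^ 2 * Real.exp (-(t / (5 * X)) ^ 2) ≤
        CG * ((1 + 5) * ipN N g g) := m1
    have m2' : ∫ t : ℝ, ‖dp N (dc cl) t‖ ^ 2 * Real.exp (-(t / (5 * X)) ^ 2) ≤
        CG * ((1 + 5) * (D ^ 2 * ipN N g g)) := m2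
    have h4 : ipN N g g ≤ D ^ 2 * l.factorial := by nlinarith
    have h5 : D ^ 2 * ipN N g g ≤ D ^ 2 * l.factorial :=
      mul_le_mul_of_nonneg_left hpair (by positivity)
    have h6 := mul_le_mul_of_nonneg_left h4 hCG.le
    have h7 := mul_le_mul_of_nonneg_left h5 hCG.le
    nlinarith
  -- each interval
  have hj : ∀ j ∈ S, lam₀ ^ (2 * l) ≤ 3 * ∫ t in (j : ℝ)..(j + 1), H t := by
    intro j hjS
    obtain ⟨hjX, t₀, ht₀, hlt⟩ := hS j hjS
    have h1 := sobolev N cl (j : ℝ) ht₀
    have h2 : lam₀ ^ (2 * l) ≤ ‖dp N cl t₀‖ ^ 2 := by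
      rw [← hQ, norm_pow, ← pow_mul, mul_comm l 2]
      exact pow_le_pow_left₀ hlam.le hlt _
    refine h2.trans (h1.trans ?_)
    rw [← intervalIntegral.integral_const_mul]
    have hcont : Continuous fun t => 2 * ‖dp N cl t‖ ^ 2 + ‖dp N (dc cl) t‖ ^ 2 := by
      have := continuous_dp N cl
      have := continuous_dp N (dc cl)
      fun_prop
    refine intervalIntegral.integral_mono_on (by linarith) (hcont.intervalIntegrable _ _)
      ((continuous_const.mul hHcont).intervalIntegrable _ _) ?_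
    intro t ht
    have ht1 : |t| ≤ 5 * X := by
      rw [abs_le] at hjX ⊢
      constructor
      · linarith [ht.1]
      · linarith [ht.2]
    have hw1 : 1 ≤ 3 * w t := by
      have h3 : (t / (5 * X)) ^ 2 ≤ 1 := by
        rw [← sq_abs, abs_div, abs_of_pos hT0]
        have : |t| / (5 * X) ≤ 1 := (div_le_one hT0).mpr ht1
        exact pow_le_one₀ (by positivity) this
      have h4 : Real.exp (-1) ≤ w t := Real.exp_le_exp.mpr (by linarith)
      have h5 : Real.exp (-1) * Real.exp 1 = 1 := by rw [← Real.exp_add]; simp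
      have h6 := Real.exp_one_lt_d9
      have h7 := Real.exp_pos (-1)
      nlinarith
    have hnn : 0 ≤ 2 * ‖dp N cl t‖ ^ 2 + ‖dp N (dc cl) t‖ ^ 2 := by positivity
    simp only [hH]
    nlinarith
  have hcard : (S.card : ℝ) * lam₀ ^ (2 * l) ≤ 3 * (CG * (18 * D ^ 2 * l.factorial)) := by
    calc (S.card : ℝ) * lam₀ ^ (2 * l) = ∑ j ∈ S, lam₀ ^ (2 * l) := by
          rw [Finset.sum_const, nsmul_eq_mul]
      _ ≤ ∑ j ∈ S, 3 * ∫ t in (j : ℝ)..(j + 1), H t := Finset.sum_le_sum hj
      _ = 3 * ∑ j ∈ S, ∫ t in (j : ℝ)..(j + 1), H t := by rw [Finset.mul_sum]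
      _ ≤ 3 * ∫ t, H t := by
          refine mul_le_mul_of_nonneg_left (sum_intervals_le (fun t => ?_) hHint S) (by norm_num)
          simp only [hH, hw]
          positivity
      _ ≤ _ := mul_le_mul_of_nonneg_left hHI (by norm_num)
  have hfac1 : (1 : ℝ) ≤ l.factorial := by
    exact_mod_cast Nat.one_le_iff_ne_zero.mpr (Nat.factorial_ne_zero l)
  have hfin : (S.card : ℝ) * lam₀ ^ (2 * l) ≤ 54 * CG * (l.factorial : ℝ) ^ 2 * D ^ 2 := by
    refine hcard.trans ?_
    have h1 : (l.factorial : ℝ) ≤ (l.factorial : ℝ) ^ 2 := by nlinarith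
    have h2 : 0 ≤ CG * D ^ 2 := by positivity
    nlinarith
  have hpow : 0 < lam₀ ^ (2 * l) := by positivity
  calc (S.card : ℝ) = (S.card : ℝ) * lam₀ ^ (2 * l) * lam₀⁻¹ ^ (2 * l) := by
        rw [inv_pow, mul_assoc, mul_inv_cancel₀ hpow.ne', mul_one]
    _ ≤ (54 * CG * (l.factorial : ℝ) ^ 2 * D ^ 2) * lam₀⁻¹ ^ (2 * l) :=
        mul_le_mul_of_nonneg_right hfin (by positivity)

end Pool.Agent.H24.MR
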