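import Pool.Agent.H24.MR.InterfaceMR

/-!
# Multiplication by a prime polynomial: combinatorics of the coefficients
-/

set_option autoImplicit false

open Finset Filter MeasureTheory

namespace Pool.Agent.H24.MR

namespace MO

/-- `(T h)(k) = ∑_{p ∣ k} h(k/p)` -/
def TT (P : Finset ℕ) (h : ℕ → ℝ) (k : ℕ) : ℝ := ∑ p ∈ P, if p ∣ k then h (k / p) else 0

/-- the pairing `∑_{1 ≤ k ≤ N} h(k) h'(k) / k` -/
noncomputable def ipN (N : ℕ) (h h' : ℕ → ℝ) : ℝ := ∑ k ∈ Finset.Icc 1 N, h k * h' k / k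

theorem sum_dvd {α : Type*} [AddCommMonoid α] {p : ℕ} (hp : 1 ≤ p) (N : ℕ) (G : ℕ → α) :
    ∑ k ∈ Finset.Icc 1 N, (if p ∣ k then G k else 0) = ∑ m ∈ Finset.Icc 1 (N / p), G (p * m) := by
  rw [← Finset.sum_filter]
  symm
  refine Finset.sum_bij (fun m _ => p * m) ?_ ?_ ?_ ?_
  · intro m hm
    rw [Finset.mem_Icc] at hm
    rw [Finset.mem_filter, Finset.mem_Icc]
    have h2 : p * m ≤ N := by
      calc p * m ≤ p * (N / p) := Nat.mul_le_mul_left _ hm.2
        _ ≤ N := Nat.mul_div_le N p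
    exact ⟨⟨Nat.one_le_iff_ne_zero.mpr (Nat.mul_ne_zero (by omega) (by omega)), h2⟩, dvd_mul_right _ _⟩
  · intro a _ b _ h
    exact Nat.eq_of_mul_eq_mul_left (by omega) h
  · intro k hk
    rw [Finset.mem_filter, Finset.mem_Icc] at hk
    obtain ⟨⟨h1, h2⟩, m, rfl⟩ := hk
    refine ⟨m, ?_, rfl⟩
    rw [Finset.mem_Icc]
    constructor
    · rcases Nat.eq_zero_or_pos m with h | h
      · subst h; omega
      · exact h
    · rw [Nat.le_div_iff_mul_le (by omega), mul_comm]
      exact h2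
  · intro m _
    rfl

section

variable {P : Finset ℕ}

theorem TT_nonneg {h : ℕ → ℝ} (hh : ∀ k, 0 ≤ h k) (k : ℕ) : 0 ≤ TT P h k :=
  Finset.sum_nonneg fun p _ => by split_ifs; exacts [hh _, le_rfl]

theorem TT_mono {h h' : ℕ → ℝ} (hh : ∀ k, h k ≤ h' k) (k : ℕ) : TT P h k ≤ TT P h' k :=
  Finset.sum_le_sum fun p _ => by split_ifs; exacts [hh _, le_rfl]

theorem TT_add (h h' : ℕ → ℝ) (k : ℕ) : TT P (fun k => h k + h' k) k = TT P h k + TT P h' k := by
  unfold TT
  rw [← Finset.sum_add_distrib]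
  refine Finset.sum_congr rfl fun p _ => ?_
  split_ifs <;> simp

theorem TT_smul (c : ℝ) (h : ℕ → ℝ) (k : ℕ) : TT P (fun k => c * h k) k = c * TT P h k := by
  unfold TT
  rw [Finset.mul_sum]
  refine Finset.sum_congr rfl fun p _ => ?_
  split_ifs <;> simp

theorem TTi_nonneg {h : ℕ → ℝ} (hh : ∀ k, 0 ≤ h k) (l k : ℕ) : 0 ≤ (TT P)^[l] h k := by
  induction l generalizing k with
  | zero => exact hh k
  | succ l ih =>
    rw [Function.iterate_succ_apply']
    exact TT_nonneg ih k

/-- `D_q T h ≤ T D_q h + h`. -/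
theorem D_TT_le (hP : ∀ p ∈ P, p.Prime) {q : ℕ} (hq : q ∈ P) {h : ℕ → ℝ} (hh : ∀ k, 0 ≤ h k)
    (k : ℕ) : TT P h (q * k) ≤ TT P (fun m => h (q * m)) k + h k := by
  classical
  have hq1 := hP q hq
  unfold TT
  rw [← Finset.add_sum_erase P _ hq, ← Finset.add_sum_erase P (fun p => if p ∣ k then h (q * (k / p)) else 0) hq]
  rw [if_pos (dvd_mul_right q k), Nat.mul_div_cancel_left k hq1.pos]
  have h1 : ∑ p ∈ P.erase q, (if p ∣ q * k then h (q * k / p) else 0) =
      ∑ p ∈ P.erase q, (if p ∣ k then h (q * (k / p)) else 0) := by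
    refine Finset.sum_congr rfl fun p hp => ?_
    rw [Finset.mem_erase] at hp
    have hp1 := hP p hp.2
    have h2 : p ∣ q * k ↔ p ∣ k := by
      rw [hp1.dvd_mul]
      constructor
      · rintro (h | h)
        · exact absurd ((Nat.prime_dvd_prime_iff_eq hp1 hq1).mp h) hp.1
        · exact h
      · exact Or.inr
    by_cases h3 : p ∣ k
    · rw [if_pos h3, if_pos (h2.mpr h3), Nat.mul_div_assoc q h3]
    · rw [if_neg h3, if_neg (fun h => h3 (h2.mp h))]
  rw [h1]
  have h4 : 0 ≤ (if q ∣ k then h (q * (k / q)) else 0) := by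
    split_ifs
    · exact hh _
    · exact le_rfl
  linarith

/-- `D_q T^l h ≤ T^l D_q h + l T^{l-1} h`. -/
theorem D_TTi_le (hP : ∀ p ∈ P, p.Prime) {q : ℕ} (hq : q ∈ P) {h : ℕ → ℝ} (hh : ∀ k, 0 ≤ h k)
    (l : ℕ) : ∀ k, (TT P)^[l] h (q * k) ≤ (TT P)^[l] (fun m => h (q * m)) k +
      l * (TT P)^[l - 1] h k := by
  induction l with
  | zero => intro k; simp
  | succ l ih =>
    intro k
    rw [Function.iterate_succ_apply', Function.iterate_succ_apply']
    refine (D_TT_le hP hq (TTi_nonneg hh l) k).trans ?_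
    have h1 : TT P (fun m => (TT P)^[l] h (q * m)) k ≤
        TT P (fun m => (TT P)^[l] (fun m => h (q * m)) m + l * (TT P)^[l - 1] h m) k :=
      TT_mono ih k
    rw [TT_add, TT_smul] at h1
    have h2 : (l : ℝ) * TT P ((TT P)^[l - 1] h) k = l * (TT P)^[l] h k := by
      cases l with
      | zero => simp
      | succ l =>
        rw [Nat.add_sub_cancel, Function.iterate_succ_apply' (TT P) l h]
    rw [h2] at h1
    simp only [Nat.add_sub_cancel]
    push_cast
    linarith

theorem ipN_mono {N : ℕ} {h h' g g' : ℕ → ℝ} (hh : ∀ k, 0 ≤ h k) (hg : ∀ k, 0 ≤ g k)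
    (h1 : ∀ k, h k ≤ h' k) (h2 : ∀ k, g k ≤ g' k) : ipN N h g ≤ ipN N h' g' := by
  unfold ipN
  refine Finset.sum_le_sum fun k _ => ?_
  refine div_le_div_of_nonneg_right ?_ (Nat.cast_nonneg k)
  exact mul_le_mul (h1 k) (h2 k) (hg k) ((hh k).trans (h1 k))

theorem ipN_comm (N : ℕ) (h h' : ℕ → ℝ) : ipN N h h' = ipN N h' h := by
  unfold ipN
  refine Finset.sum_congr rfl fun k _ => ?_
  rw [mul_comm (h k)]

theorem ipN_add (N : ℕ) (h g g' : ℕ → ℝ) :
    ipN N h (fun k => g k + g' k) = ipN N h g + ipN N h g' := by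
  unfold ipN
  rw [← Finset.sum_add_distrib]
  refine Finset.sum_congr rfl fun k _ => ?_
  ring

theorem ipN_smul (N : ℕ) (c : ℝ) (h g : ℕ → ℝ) :
    ipN N h (fun k => c * g k) = c * ipN N h g := by
  unfold ipN
  rw [Finset.mul_sum]
  refine Finset.sum_congr rfl fun k _ => ?_
  ring

theorem ipN_nonneg {N : ℕ} {h g : ℕ → ℝ} (hh : ∀ k, 0 ≤ h k) (hg : ∀ k, 0 ≤ g k) :
    0 ≤ ipN N h g :=
  Finset.sum_nonneg fun k _ => div_nonneg (mul_nonneg (hh k) (hg k)) (Nat.cast_nonneg k)

/-- adjoint inequality -/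
theorem ipN_TT_le (hP : ∀ p ∈ P, p.Prime) {N : ℕ} {h g : ℕ → ℝ} (hh : ∀ k, 0 ≤ h k)
    (hg : ∀ k, 0 ≤ g k) :
    ipN N (TT P h) g ≤ ∑ p ∈ P, (1 / (p : ℝ)) * ipN N h (fun m => g (p * m)) := by
  unfold ipN TT
  have h1 : ∑ k ∈ Finset.Icc 1 N, (∑ p ∈ P, if p ∣ k then h (k / p) else 0) * g k / k =
      ∑ p ∈ P, ∑ k ∈ Finset.Icc 1 N, (if p ∣ k then h (k / p) * g k / k else 0) := by
    rw [Finset.sum_comm]
    refine Finset.sum_congr rfl fun k _ => ?_
    rw [Finset.sum_mul, Finset.sum_div]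
    refine Finset.sum_congr rfl fun p _ => ?_
    split_ifs <;> simp
  rw [h1]
  refine Finset.sum_le_sum fun p hp => ?_
  have hp1 := (hP p hp).pos
  rw [sum_dvd hp1 N (fun k => h (k / p) * g k / k), Finset.mul_sum]
  calc ∑ m ∈ Finset.Icc 1 (N / p), h (p * m / p) * g (p * m) / ((p * m : ℕ) : ℝ) =
        ∑ m ∈ Finset.Icc 1 (N / p), 1 / (p : ℝ) * (h m * g (p * m) / m) := by
        refine Finset.sum_congr rfl fun m hm => ?_
        rw [Finset.mem_Icc] at hm
        rw [Nat.mul_div_cancel_left m hp1]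
        push_cast
        have h2 : (p : ℝ) ≠ 0 := by exact_mod_cast hp1.ne'
        have h3 : (m : ℝ) ≠ 0 := by
          have : 0 < m := hm.1
          exact_mod_cast this.ne'
        field_simp
    _ ≤ _ := by
        refine Finset.sum_le_sum_of_subset_of_nonneg (Finset.Icc_subset_Icc_right (Nat.div_le_self N p))
          fun m _ _ => ?_
        have := div_nonneg (mul_nonneg (hh m) (hg (p * m))) (Nat.cast_nonneg (α := ℝ) m)
        positivity

/-- indicator of `[y/e, ye]` -/
noncomputable def ind (y : ℝ) (n : ℕ) : ℝ :=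
  if y / Real.exp 1 ≤ n ∧ (n : ℝ) ≤ y * Real.exp 1 then 1 else 0

theorem ind_nonneg (y : ℝ) (n : ℕ) : 0 ≤ ind y n := by unfold ind; split_ifs <;> norm_num

theorem ind_le_one (y : ℝ) (n : ℕ) : ind y n ≤ 1 := by unfold ind; split_ifs <;> norm_num

theorem ind_mul {q : ℕ} (hq : 0 < q) (y : ℝ) (n : ℕ) : ind y (q * n) = ind (y / q) n := by
  have hq' : (0 : ℝ) < q := by exact_mod_cast hq
  unfold ind
  congr 1
  apply propext
  push_cast
  constructor
  · rintro ⟨h1, h2⟩
    constructor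
    · rw [div_right_comm, div_le_iff₀ hq']
      linarith
    · rw [div_mul_eq_mul_div, le_div_iff₀ hq']
      linarith
  · rintro ⟨h1, h2⟩
    rw [div_right_comm, div_le_iff₀ hq'] at h1
    rw [div_mul_eq_mul_div, le_div_iff₀ hq'] at h2
    constructor <;> linarith

theorem sum_inv_le {A : ℕ} (hA : 1 ≤ A) (d : ℕ) :
    ∑ k ∈ Finset.Icc A (A + d), (1 : ℝ) / k ≤ 1 + (Real.log ((A + d : ℕ) : ℝ) - Real.log A) := by
  induction d with
  | zero =>
    rw [Nat.add_zero, Finset.Icc_self, Finset.sum_singleton, sub_self, add_zero]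
    have : (1 : ℝ) ≤ A := by exact_mod_cast hA
    rw [div_le_one (by linarith)]
    exact this
  | succ d ih =>
    rw [← Nat.add_assoc, Finset.sum_Icc_succ_top (by omega)]
    have h1 : (0 : ℝ) < ((A + d : ℕ) : ℝ) := by
      have : 0 < A + d := by omega
      exact_mod_cast this
    have h2 : (0 : ℝ) < ((A + d + 1 : ℕ) : ℝ) := by positivity
    have h3 : (1 : ℝ) / ((A + d + 1 : ℕ) : ℝ) ≤
        Real.log ((A + d + 1 : ℕ) : ℝ) - Real.log ((A + d : ℕ) : ℝ) := by
      have h4 := Real.log_le_sub_one_of_pos (x := ((A + d : ℕ) : ℝ) / ((A + d + 1 : ℕ) : ℝ))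
        (by positivity)
      rw [Real.log_div h1.ne' h2.ne'] at h4
      have h5 : ((A + d : ℕ) : ℝ) / ((A + d + 1 : ℕ) : ℝ) - 1 = -(1 / ((A + d + 1 : ℕ) : ℝ)) := by
        rw [div_sub_one h2.ne']
        push_cast
        rw [show ((A : ℝ) + d - (A + d + 1)) = -1 by ring, neg_div]
      rw [h5] at h4
      linarith
    linarith

theorem ipN_ind_le (N : ℕ) {y y' : ℝ} : ipN N (ind y') (ind y) ≤ 3 := by
  have h0 : ipN N (ind y') (ind y) ≤ ∑ k ∈ (Finset.Icc 1 N).filter
      (fun k : ℕ => y / Real.exp 1 ≤ k ∧ (k : ℝ) ≤ y * Real.exp 1), (1 : ℝ) / k := by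
    unfold ipN
    rw [Finset.sum_filter]
    refine Finset.sum_le_sum fun k _ => ?_
    by_cases h : y / Real.exp 1 ≤ k ∧ (k : ℝ) ≤ y * Real.exp 1
    · rw [if_pos h]
      refine div_le_div_of_nonneg_right ?_ (Nat.cast_nonneg k)
      calc ind y' k * ind y k ≤ 1 * 1 :=
            mul_le_mul (ind_le_one _ _) (ind_le_one _ _) (ind_nonneg _ _) zero_le_one
        _ = 1 := one_mul _
    · rw [if_neg h]
      have : ind y k = 0 := by unfold ind; rw [if_neg h]
      rw [this]; simp
  refine h0.trans ?_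
  set S := (Finset.Icc 1 N).filter (fun k : ℕ => y / Real.exp 1 ≤ k ∧ (k : ℝ) ≤ y * Real.exp 1)
    with hS
  rcases S.eq_empty_or_nonempty with he | hne
  · rw [he, Finset.sum_empty]; norm_num
  · set A := S.min' hne with hA
    set B := S.max' hne with hB
    have hAm := S.min'_mem hne
    have hBm := S.max'_mem hne
    rw [← hA, hS, Finset.mem_filter, Finset.mem_Icc] at hAm
    rw [← hB, hS, Finset.mem_filter, Finset.mem_Icc] at hBm
    have hAB : A ≤ B := S.min'_le _ (S.max'_mem hne)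
    obtain ⟨d, hd⟩ := Nat.exists_eq_add_of_le hAB
    have h1 : ∑ k ∈ S, (1 : ℝ) / k ≤ ∑ k ∈ Finset.Icc A (A + d), (1 : ℝ) / k := by
      refine Finset.sum_le_sum_of_subset_of_nonneg ?_ fun k _ _ => by positivity
      intro k hk
      rw [Finset.mem_Icc, ← hd]
      exact ⟨S.min'_le k hk, S.le_max' k hk⟩
    refine h1.trans ((sum_inv_le hAm.1.1 d).trans ?_)
    rw [← hd]
    have hA0 : (0 : ℝ) < A := by exact_mod_cast hAm.1.1
    have hB0 : (0 : ℝ) < B := by exact_mod_cast hBm.1.1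
    have hy : 0 < y := by
      by_contra hy
      push Not at hy
      have := hBm.2.2
      have h2 : y * Real.exp 1 ≤ 0 := mul_nonpos_of_nonpos_of_nonneg hy (Real.exp_pos 1).le
      linarith
    have h2 : Real.log B ≤ Real.log y + 1 := by
      have := Real.log_le_log hB0 hBm.2.2
      rwa [Real.log_mul hy.ne' (Real.exp_pos 1).ne', Real.log_exp] at this
    have h3 : Real.log y - 1 ≤ Real.log A := by
      have := Real.log_le_log (by positivity) hAm.2.1
      rwa [Real.log_div hy.ne' (Real.exp_pos 1).ne', Real.log_exp] at this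
    linarith

/-- `⟨T^l 1_{y'}, 1_y⟩ ≤ 3` -/
theorem base_le (hP : ∀ p ∈ P, p.Prime) (hs : ∑ p ∈ P, (1 : ℝ) / p ≤ 1) (N l : ℕ) :
    ∀ y y' : ℝ, ipN N ((TT P)^[l] (ind y')) (ind y) ≤ 3 := by
  induction l with
  | zero => intro y y'; exact ipN_ind_le N
  | succ l ih =>
    intro y y'
    rw [Function.iterate_succ_apply']
    refine (ipN_TT_le hP (TTi_nonneg (ind_nonneg y') l) (ind_nonneg y)).trans ?_
    calc ∑ p ∈ P, 1 / (p : ℝ) * ipN N ((TT P)^[l] (ind y')) (fun m => ind y (p * m)) ≤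
        ∑ p ∈ P, 1 / (p : ℝ) * 3 := by
          refine Finset.sum_le_sum fun p hp => ?_
          refine mul_le_mul_of_nonneg_left ?_ (by positivity)
          have : (fun m => ind y (p * m)) = ind (y / p) := by
            funext m; exact ind_mul (hP p hp).pos y m
          rw [this]
          exact ih _ _
      _ ≤ 3 := by
          rw [← Finset.sum_mul]
          linarith

/-- `⟨T^j 1_y, T^l 1_{y'}⟩ ≤ 3 (j+1) j! l!` -/
theorem pair_le (hP : ∀ p ∈ P, p.Prime) (hs : ∑ p ∈ P, (1 : ℝ) / p ≤ 1) (N j : ℕ) :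
    ∀ (l : ℕ) (y y' : ℝ), ipN N ((TT P)^[j] (ind y)) ((TT P)^[l] (ind y')) ≤
      3 * (j + 1) * j.factorial * l.factorial := by
  induction j with
  | zero =>
    intro l y y'
    rw [ipN_comm]
    refine (base_le hP hs N l y y').trans ?_
    have : (1 : ℝ) ≤ l.factorial := by exact_mod_cast Nat.one_le_iff_ne_zero.mpr (Nat.factorial_ne_zero l)
    simp only [Nat.factorial_zero, Nat.cast_zero, Nat.cast_one, zero_add, mul_one]
    linarith
  | succ j ih =>
    intro l y y'
    rw [Function.iterate_succ_apply']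
    have hn1 := TTi_nonneg (P := P) (ind_nonneg y) j
    have hn2 := TTi_nonneg (P := P) (ind_nonneg y') l
    refine (ipN_TT_le hP hn1 hn2).trans ?_
    have hjl : (0 : ℝ) ≤ 3 * (j + 1) * j.factorial * l.factorial := by positivity
    have hstep : ∀ q ∈ P, ipN N ((TT P)^[j] (ind y)) (fun m => (TT P)^[l] (ind y') (q * m)) ≤
        3 * (j + 2) * (j + 1).factorial * l.factorial := by
      intro q hq
      have h1 : ipN N ((TT P)^[j] (ind y)) (fun m => (TT P)^[l] (ind y') (q * m)) ≤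
          ipN N ((TT P)^[j] (ind y)) (fun m => (TT P)^[l] (ind (y' / q)) m +
            l * (TT P)^[l - 1] (ind y') m) := by
        refine ipN_mono hn1 (fun k => hn2 _) (fun _ => le_rfl) fun k => ?_
        have h2 := D_TTi_le hP hq (ind_nonneg y') l k
        have h3 : (fun m => ind y' (q * m)) = ind (y' / q) := by
          funext m; exact ind_mul (hP q hq).pos y' m
        rwa [h3] at h2
      refine h1.trans ?_
      rw [ipN_add, ipN_smul]
      have h4 := ih l y (y' / q)
      have h5 : (l : ℝ) * ipN N ((TT P)^[j] (ind y)) ((TT P)^[l - 1] (ind y')) ≤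
          3 * (j + 1) * j.factorial * l.factorial := by
        cases l with
        | zero => simp only [Nat.cast_zero, zero_mul]; positivity
        | succ l =>
          have h6 := ih l y y'
          rw [Nat.add_sub_cancel, Nat.factorial_succ l]
          have h7 := mul_le_mul_of_nonneg_left h6 (Nat.cast_nonneg (α := ℝ) (l + 1))
          refine h7.trans (le_of_eq ?_)
          push_cast
          ring
      have h8 : 3 * ((j : ℝ) + 1) * j.factorial * l.factorial +
          3 * ((j : ℝ) + 1) * j.factorial * l.factorial ≤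
          3 * (j + 2) * (j + 1).factorial * l.factorial := by
        rw [Nat.factorial_succ j]
        push_cast
        have h9 : (0 : ℝ) ≤ 3 * ((j : ℝ) + 1) * j.factorial * l.factorial := by positivity
        have h10 : 3 * ((j : ℝ) + 2) * ((j + 1) * j.factorial) * l.factorial =
            (j + 2) * (3 * ((j : ℝ) + 1) * j.factorial * l.factorial) := by ring
        rw [h10]
        have : (0 : ℝ) ≤ j := Nat.cast_nonneg j
        nlinarith
      linarith
    calc ∑ p ∈ P, 1 / (p : ℝ) * ipN N ((TT P)^[j] (ind y))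
          (fun m => (TT P)^[l] (ind y') (p * m)) ≤
        ∑ p ∈ P, 1 / (p : ℝ) * (3 * (j + 2) * (j + 1).factorial * l.factorial) := by
          refine Finset.sum_le_sum fun p hp => ?_
          exact mul_le_mul_of_nonneg_left (hstep p hp) (by positivity)
      _ ≤ 3 * (j + 2) * (j + 1).factorial * l.factorial := by
          rw [← Finset.sum_mul]
          have : (0 : ℝ) ≤ 3 * (j + 2) * (j + 1).factorial * l.factorial := by positivity
          nlinarith
      _ = _ := by push_cast; ring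

end

end MO

end Pool.Agent.H24.MR
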