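import Pool.Agent.H9.MR.GM
import Pool.Agent.H9.MR.MOBase

/-!
# [MO]: moment bound with amplification
-/

set_option autoImplicit false

open Finset Filter MeasureTheory

namespace Pool.Agent.H24.MR

namespace MO

/-- coefficients of the product with `QP` -/
noncomputable def TTc (P : Finset ℕ) (c : ℕ → ℂ) (k : ℕ) : ℂ :=
  ∑ p ∈ P, if p ∣ k then (1 / (p : ℂ)) * c (k / p) else 0

theorem nit_mul {m n : ℕ} (hm : 1 ≤ m) (hn : 1 ≤ n) (t : ℝ) :
    nit (m * n) t = nit m t * nit n t := by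
  unfold nit
  rw [← Complex.exp_add]
  congr 1
  have h1 : (m : ℝ) ≠ 0 := by
    have : 0 < m := hm
    exact_mod_cast this.ne'
  have h2 : (n : ℝ) ≠ 0 := by
    have : 0 < n := hn
    exact_mod_cast this.ne'
  rw [Nat.cast_mul, Real.log_mul h1 h2]
  push_cast
  ring

section

variable {P : Finset ℕ}

theorem expand_step (hP : ∀ p ∈ P, p.Prime) {c : ℕ → ℂ} {N : ℕ} (hc : ∀ k, N < k → c k = 0) :
    ∃ N', (∀ k, N' < k → TTc P c k = 0) ∧ ∀ t : ℝ,
      QP P t * ∑ k ∈ Finset.Icc 1 N, c k * nit k t =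
        ∑ k ∈ Finset.Icc 1 N', TTc P c k * nit k t := by
  refine ⟨N * (P.sup id), ?_, ?_⟩
  · intro k hk
    unfold TTc
    refine Finset.sum_eq_zero fun p hp => ?_
    split_ifs with h
    · obtain ⟨m, rfl⟩ := h
      have hp1 := (hP p hp).pos
      rw [Nat.mul_div_cancel_left m hp1, hc m, mul_zero]
      by_contra hcon
      push Not at hcon
      have h1 : p ≤ P.sup id := Finset.le_sup (f := id) hp
      have : p * m ≤ N * P.sup id := by
        rw [mul_comm N]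
        exact Nat.mul_le_mul h1 hcon
      omega
    · rfl
  · intro t
    unfold TTc QP
    rw [Finset.sum_mul_sum]
    have h1 : ∑ k ∈ Finset.Icc 1 (N * P.sup id),
        (∑ p ∈ P, if p ∣ k then (1 / (p : ℂ)) * c (k / p) else 0) * nit k t =
        ∑ p ∈ P, ∑ k ∈ Finset.Icc 1 (N * P.sup id),
          (if p ∣ k then (1 / (p : ℂ)) * c (k / p) * nit k t else 0) := by
      rw [Finset.sum_comm]
      refine Finset.sum_congr rfl fun k _ => ?_
      rw [Finset.sum_mul]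
      refine Finset.sum_congr rfl fun p _ => ?_
      split_ifs <;> simp
    rw [h1]
    refine Finset.sum_congr rfl fun p hp => ?_
    have hp1 := (hP p hp).pos
    rw [sum_dvd hp1 _ (fun k => (1 / (p : ℂ)) * c (k / p) * nit k t)]
    have hsub : Finset.Icc 1 N ⊆ Finset.Icc 1 (N * P.sup id / p) := by
      apply Finset.Icc_subset_Icc_right
      rw [Nat.le_div_iff_mul_le hp1]
      exact Nat.mul_le_mul_left _ (Finset.le_sup (f := id) hp)
    have h2 : ∀ m ∈ Finset.Icc 1 (N * P.sup id / p), m ∉ Finset.Icc 1 N →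
        (1 / (p : ℂ)) * c (p * m / p) * nit (p * m) t = 0 := by
      intro m hm hm'
      rw [Finset.mem_Icc] at hm hm'
      rw [Nat.mul_div_cancel_left m hp1, hc m (by omega)]
      simp
    rw [← Finset.sum_subset hsub h2]
    refine Finset.sum_congr rfl fun m hm => ?_
    rw [Finset.mem_Icc] at hm
    rw [Nat.mul_div_cancel_left m hp1, nit_mul hp1 hm.1]
    ring

theorem expand (hP : ∀ p ∈ P, p.Prime) {c : ℕ → ℂ} {N : ℕ} (hc : ∀ k, N < k → c k = 0) (l : ℕ) :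
    ∃ N', (∀ k, N' < k → (TTc P)^[l] c k = 0) ∧ ∀ t : ℝ,
      QP P t ^ l * ∑ k ∈ Finset.Icc 1 N, c k * nit k t =
        ∑ k ∈ Finset.Icc 1 N', (TTc P)^[l] c k * nit k t := by
  induction l with
  | zero => exact ⟨N, hc, fun t => by simp⟩
  | succ l ih =>
    obtain ⟨N1, h1, h2⟩ := ih
    obtain ⟨N2, h3, h4⟩ := expand_step hP h1
    refine ⟨N2, ?_, ?_⟩
    · intro k hk
      rw [Function.iterate_succ_apply']
      exact h3 k hk
    · intro t
      simp only [Function.iterate_succ_apply']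
      rw [pow_succ', mul_assoc, h2, h4]

theorem TTc_bound (hP : ∀ p ∈ P, p.Prime) {c : ℕ → ℂ} {g : ℕ → ℝ}
    (h : ∀ k, 1 ≤ k → ‖c k‖ ≤ g k / k) (k : ℕ) (hk : 1 ≤ k) : ‖TTc P c k‖ ≤ TT P g k / k := by
  unfold TTc TT
  refine (norm_sum_le _ _).trans ?_
  rw [Finset.sum_div]
  refine Finset.sum_le_sum fun p hp => ?_
  have hp1 := (hP p hp).pos
  split_ifs with hd
  · obtain ⟨m, rfl⟩ := hd
    rw [Nat.mul_div_cancel_left m hp1]
    have hm : 1 ≤ m := by
      rcases Nat.eq_zero_or_pos m with h | h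
      · subst h; omega
      · exact h
    rw [norm_mul, norm_div, norm_one, Complex.norm_natCast]
    have h1 := mul_le_mul_of_nonneg_left (h m hm) (by positivity : (0 : ℝ) ≤ 1 / p)
    refine h1.trans (le_of_eq ?_)
    push_cast
    have h2 : (p : ℝ) ≠ 0 := by exact_mod_cast hp1.ne'
    have h3 : (m : ℝ) ≠ 0 := by
      have : 0 < m := hm
      exact_mod_cast this.ne'
    field_simp
  · simp

theorem TTci_bound (hP : ∀ p ∈ P, p.Prime) {c : ℕ → ℂ} {g : ℕ → ℝ}
    (h : ∀ k, 1 ≤ k → ‖c k‖ ≤ g k / k) (l : ℕ) :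
    ∀ k, 1 ≤ k → ‖(TTc P)^[l] c k‖ ≤ (TT P)^[l] g k / k := by
  induction l with
  | zero => exact h
  | succ l ih =>
    intro k hk
    rw [Function.iterate_succ_apply', Function.iterate_succ_apply']
    exact TTc_bound hP ih k hk

theorem support_TTi (hP : ∀ p ∈ P, p.Prime) {V : ℝ} (hV : ∀ p ∈ P, Real.exp V ≤ p) {g : ℕ → ℝ}
    {y : ℝ} (hy : 0 ≤ y) (hg : ∀ k, g k ≠ 0 → y ≤ k) (l : ℕ) :
    ∀ k : ℕ, (TT P)^[l] g k ≠ 0 → Real.exp (l * V) * y ≤ k := by
  induction l with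
  | zero => intro k hk; simpa using hg k hk
  | succ l ih =>
    intro k hk
    rw [Function.iterate_succ_apply'] at hk
    unfold TT at hk
    obtain ⟨p, hp, hpk⟩ := Finset.exists_ne_zero_of_sum_ne_zero hk
    by_cases hd : p ∣ k
    · rw [if_pos hd] at hpk
      obtain ⟨m, rfl⟩ := hd
      rw [Nat.mul_div_cancel_left m (hP p hp).pos] at hpk
      have h1 := ih m hpk
      push_cast
      rw [show ((l : ℝ) + 1) * V = V + l * V by ring, Real.exp_add, mul_assoc]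
      exact mul_le_mul (hV p hp) h1 (by positivity) (Nat.cast_nonneg p)
    · rw [if_neg hd] at hpk
      exact absurd rfl hpk

end

/-- Mean square of `∑ c_k k^{-it}` in terms of `ipN`. -/
theorem mean_le {CG : ℝ} (hCG : 0 < CG)
    (hGM : ∀ (T : ℝ) (S : Finset ℕ) (a : ℕ → ℂ), 4 ≤ T → (∀ n ∈ S, 1 ≤ n) →
    ∫ t : ℝ, ‖∑ n ∈ S, a n * nit n t‖ ^ 2 * Real.exp (-(t / T) ^ 2)
      ≤ CG * ∑ n ∈ S, ‖a n‖ ^ 2 * (T + n)) {T K : ℝ} (hT : 4 ≤ T) {N : ℕ}
    {c : ℕ → ℂ} {g : ℕ → ℝ} (hg : ∀ k, 0 ≤ g k) (hc : ∀ k, 1 ≤ k → ‖c k‖ ≤ g k / k)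
    (hsupp : ∀ k, g k ≠ 0 → T ≤ K * k) :
    ∫ t : ℝ, ‖∑ k ∈ Finset.Icc 1 N, c k * nit k t‖ ^ 2 * Real.exp (-(t / T) ^ 2) ≤
      CG * ((1 + K) * ipN N g g) := by
  refine (hGM T (Finset.Icc 1 N) c hT (fun n hn => (Finset.mem_Icc.mp hn).1)).trans ?_
  refine mul_le_mul_of_nonneg_left ?_ hCG.le
  unfold ipN
  rw [Finset.mul_sum]
  refine Finset.sum_le_sum fun k hk => ?_
  have hk1 := (Finset.mem_Icc.mp hk).1
  have hk0 : (0 : ℝ) < k := by exact_mod_cast hk1
  have h1 := hc k hk1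
  by_cases h0 : g k = 0
  · rw [h0, zero_div] at h1
    have : ‖c k‖ = 0 := le_antisymm h1 (norm_nonneg _)
    rw [this, h0]
    simp
  · have h2 := hsupp k h0
    have h3 : ‖c k‖ ^ 2 ≤ (g k / k) ^ 2 := pow_le_pow_left₀ (norm_nonneg _) h1 2
    calc ‖c k‖ ^ 2 * (T + k) ≤ (g k / k) ^ 2 * (K * k + k) :=
          mul_le_mul h3 (by linarith) (by linarith) (by positivity)
      _ = (1 + K) * (g k * g k / k) := by
          field_simp
          ring

end MO

open MO in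
/-- [MO] -/
theorem mo : StatementMO := by
  obtain ⟨CG, hCG, hGM⟩ := gm
  refine ⟨CG * 12, by positivity, ?_⟩
  intro P V M T l a hV hM hP hs hT4 hTM ha
  have hPp : ∀ p ∈ P, p.Prime := fun p hp => (hP p hp).1
  have hM0 : 0 < M := by linarith
  set c : ℕ → ℂ := fun k =>
    if k ∈ Finset.Icc ⌈M / Real.exp 1⌉₊ ⌊M * Real.exp 1⌋₊ then a k else 0 with hc
  have hA1 : 1 ≤ ⌈M / Real.exp 1⌉₊ := Nat.one_le_iff_ne_zero.mpr (by
    rw [Ne, Nat.ceil_eq_zero, not_le]
    positivity)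
  have hsupp0 : ∀ k, ⌊M * Real.exp 1⌋₊ < k → c k = 0 := by
    intro k hk
    simp only [hc]
    rw [if_neg]
    rw [Finset.mem_Icc]
    omega
  have hsum : ∀ t : ℝ, ∑ n ∈ Finset.Icc ⌈M / Real.exp 1⌉₊ ⌊M * Real.exp 1⌋₊, a n * nit n t =
      ∑ k ∈ Finset.Icc 1 ⌊M * Real.exp 1⌋₊, c k * nit k t := by
    intro t
    have hsub : Finset.Icc ⌈M / Real.exp 1⌉₊ ⌊M * Real.exp 1⌋₊ ⊆
        Finset.Icc 1 ⌊M * Real.exp 1⌋₊ := Finset.Icc_subset_Icc_left hA1
    rw [← Finset.sum_subset hsub]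
    · refine Finset.sum_congr rfl fun n hn => ?_
      simp only [hc]
      rw [if_pos hn]
    · intro k _ hk
      simp only [hc]
      rw [if_neg hk, zero_mul]
  have hcb : ∀ k, 1 ≤ k → ‖c k‖ ≤ ind M k / k := by
    intro k _
    simp only [hc]
    split_ifs with h
    · rw [Finset.mem_Icc, Nat.ceil_le, Nat.le_floor_iff (by positivity)] at h
      unfold ind
      rw [if_pos h]
      exact ha k
    · rw [norm_zero]
      exact div_nonneg (ind_nonneg _ _) (Nat.cast_nonneg k)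
  obtain ⟨N, hN1, hN2⟩ := expand hPp hsupp0 l
  have hg0 := TTi_nonneg (P := P) (ind_nonneg M) l
  have hsup := support_TTi hPp (V := V) (fun p hp => (hP p hp).2.1) (g := ind M)
    (y := M / Real.exp 1) (by positivity) (fun k hk => by
      unfold ind at hk
      by_contra hcon
      rw [if_neg (fun h => hcon h.1)] at hk
      exact hk rfl) l
  have hmean := mean_le hCG hGM (K := Real.exp 1) hT4 (N := N) hg0 (TTci_bound hPp hcb l)
    (fun k hk => by
      have h1 := hsup k hk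
      have h2 : M * Real.exp (l * V) = Real.exp 1 * (Real.exp (l * V) * (M / Real.exp 1)) := by
        field_simp
      calc T ≤ M * Real.exp (l * V) := hTM
        _ = Real.exp 1 * (Real.exp (l * V) * (M / Real.exp 1)) := h2
        _ ≤ Real.exp 1 * k := mul_le_mul_of_nonneg_left h1 (Real.exp_pos 1).le)
  have heq : (fun t : ℝ => ‖QP P t ^ l * ∑ n ∈ Finset.Icc ⌈M / Real.exp 1⌉₊ ⌊M * Real.exp 1⌋₊,
      a n * nit n t‖ ^ 2 * Real.exp (-(t / T) ^ 2)) =
      fun t : ℝ => ‖∑ k ∈ Finset.Icc 1 N, (TTc P)^[l] c k * nit k t‖ ^ 2 *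
        Real.exp (-(t / T) ^ 2) := by
    funext t
    rw [hsum, hN2]
  rw [heq]
  refine hmean.trans ?_
  rw [mul_assoc, mul_assoc]
  refine mul_le_mul_of_nonneg_left ?_ hCG.le
  have hpair := pair_le hPp hs N l l M M
  have he : Real.exp 1 < 3 := by
    have := Real.exp_one_lt_d9
    linarith
  have hip : 0 ≤ ipN N ((TT P)^[l] (ind M)) ((TT P)^[l] (ind M)) := ipN_nonneg hg0 hg0
  have hl : (0 : ℝ) ≤ l := Nat.cast_nonneg l
  have hf : (0 : ℝ) ≤ (l.factorial : ℝ) ^ 2 := by positivity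
  calc (1 + Real.exp 1) * ipN N ((TT P)^[l] (ind M)) ((TT P)^[l] (ind M)) ≤
        4 * (3 * (l + 1) * l.factorial * l.factorial) :=
        mul_le_mul (by linarith) hpair hip (by norm_num)
    _ = 12 * ((l.factorial : ℝ) ^ 2 * (l + 1)) := by ring
    _ ≤ 12 * ((l.factorial : ℝ) ^ 2 * (l + 1) ^ 2) := by
        refine mul_le_mul_of_nonneg_left (mul_le_mul_of_nonneg_left ?_ hf) (by norm_num)
        nlinarith

end Pool.Agent.H24.MR
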